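import Mathlib

/-! The Schwarz integral of a bounded function on the unit circle. -/

set_option autoImplicit false
open Complex Metric Set Filter Topology MeasureTheory

namespace Pool.Agent.Helper63x.TC

/-- The Schwarz integral: the analytic function whose imaginary part is the Poisson integral of `u`. -/
noncomputable def sa (u : ℂ → ℝ) (w : ℂ) : ℂ :=
  I * Real.circleAverage (fun ζ => herglotzRieszKernel 0 w ζ • (u ζ : ℂ)) 0 1

/-- its derivative -/
noncomputable def sd (u : ℂ → ℝ) (w : ℂ) : ℂ :=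
  I * Real.circleAverage (fun ζ => 2 * ζ / (ζ - w) ^ 2 * (u ζ : ℂ)) 0 1

theorem cm_norm (θ : ℝ) : ‖circleMap 0 1 θ‖ = 1 := by
  rw [norm_circleMap_zero, abs_one]

theorem meas_u {u : ℂ → ℝ} (hu : Measurable u) : Measurable fun θ : ℝ => u (circleMap 0 1 θ) :=
  hu.comp (continuous_circleMap 0 1).measurable

theorem ci_u {u : ℂ → ℝ} (hu : Measurable u) {M : ℝ} (hM : ∀ ζ : ℂ, ‖ζ‖ = 1 → |u ζ| ≤ M) :
    CircleIntegrable u 0 1 := by
  unfold CircleIntegrable
  apply (intervalIntegrable_const (c := M)).mono_fun ((meas_u hu).aestronglyMeasurable)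
  filter_upwards with θ
  have h1 := hM _ (cm_norm θ)
  have h2 : 0 ≤ M := (abs_nonneg _).trans h1
  rw [Real.norm_eq_abs, Real.norm_of_nonneg h2]
  exact h1

theorem sub_ne {w ζ : ℂ} (hw : ‖w‖ < 1) (hζ : ‖ζ‖ = 1) : ζ - w ≠ 0 := by
  intro h
  rw [sub_eq_zero.1 h] at hζ
  linarith

theorem sub_lower {w ζ : ℂ} (hζ : ‖ζ‖ = 1) : 1 - ‖w‖ ≤ ‖ζ - w‖ := by
  have := norm_sub_norm_le ζ w
  rw [hζ] at this
  exact this

theorem sa_hasDeriv {u : ℂ → ℝ} (hu : Measurable u) {M : ℝ} (hM : ∀ ζ : ℂ, ‖ζ‖ = 1 → |u ζ| ≤ M) {w : ℂ}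
    (hw : ‖w‖ < 1) : HasDerivAt (sa u) (sd u w) w := by
  have hM0 : 0 ≤ M := (abs_nonneg _).trans (hM _ (cm_norm 0))
  set ε : ℝ := (1 - ‖w‖) / 2 with hε
  have hε0 : 0 < ε := by rw [hε]; linarith
  have hx : ∀ x ∈ ball w ε, ‖x‖ < 1 ∧ ε ≤ 1 - ‖x‖ := by
    intro x hx
    rw [mem_ball, dist_eq_norm] at hx
    have h1 : ‖x‖ ≤ ‖w‖ + ‖x - w‖ := by
      calc ‖x‖ = ‖w + (x - w)‖ := by rw [add_sub_cancel]
        _ ≤ _ := norm_add_le _ _
    constructor
    · rw [hε] at hx; linarith
    · rw [hε] at hx ⊢; linarith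
  have hcm : Measurable fun θ : ℝ => circleMap 0 1 θ := (continuous_circleMap 0 1).measurable
  have hmu : Measurable fun θ : ℝ => ((u (circleMap 0 1 θ) : ℝ) : ℂ) := Complex.measurable_ofReal.comp (meas_u hu)
  have key : HasDerivAt (fun x => ∫ θ in (0:ℝ)..(2 * Real.pi), herglotzRieszKernel 0 x (circleMap 0 1 θ) •
      ((u (circleMap 0 1 θ) : ℝ) : ℂ))
      (∫ θ in (0:ℝ)..(2 * Real.pi), 2 * circleMap 0 1 θ / (circleMap 0 1 θ - w) ^ 2 * ((u (circleMap 0 1 θ) : ℝ) : ℂ)) w := by
    refine (intervalIntegral.hasDerivAt_integral_of_dominated_loc_of_deriv_le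
      (F := fun x θ => herglotzRieszKernel 0 x (circleMap 0 1 θ) • ((u (circleMap 0 1 θ) : ℝ) : ℂ))
      (F' := fun x θ => 2 * circleMap 0 1 θ / (circleMap 0 1 θ - x) ^ 2 * ((u (circleMap 0 1 θ) : ℝ) : ℂ))
      (bound := fun _ => 2 / ε ^ 2 * M) (ball_mem_nhds w hε0) ?_ ?_ ?_ ?_ ?_ ?_).2
    · filter_upwards with x
      apply Measurable.aestronglyMeasurable
      simp only [herglotzRieszKernel_def, smul_eq_mul, sub_zero]
      exact (((hcm.add_const x).div (hcm.sub_const x))).mul hmu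
    · apply (intervalIntegrable_const (c := 2 / (1 - ‖w‖) * M)).mono_fun
      · apply Measurable.aestronglyMeasurable
        simp only [herglotzRieszKernel_def, smul_eq_mul, sub_zero]
        exact (((hcm.add_const w).div (hcm.sub_const w))).mul hmu
      · filter_upwards with θ
        have h0 : 0 < 1 - ‖w‖ := by linarith
        have h1 := sub_lower (w := w) (cm_norm θ)
        rw [Real.norm_of_nonneg (by positivity), norm_smul, Complex.norm_real, Real.norm_eq_abs, herglotzRieszKernel_def,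
          sub_zero, sub_zero, norm_div]
        apply mul_le_mul _ (hM _ (cm_norm θ)) (abs_nonneg _) (by positivity)
        apply div_le_div₀ (by norm_num) _ h0 h1
        calc ‖circleMap 0 1 θ + w‖ ≤ ‖circleMap 0 1 θ‖ + ‖w‖ := norm_add_le _ _
          _ ≤ 2 := by rw [cm_norm]; linarith
    · apply Measurable.aestronglyMeasurable
      exact (((hcm.const_mul 2).div ((hcm.sub_const w).pow_const 2))).mul hmu
    · filter_upwards with θ _ x hxb
      have h2 := (hx x hxb).2
      have h1 : ε ≤ ‖circleMap 0 1 θ - x‖ := h2.trans (sub_lower (cm_norm θ))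
      rw [norm_mul, norm_div, norm_mul, norm_pow, Complex.norm_real, Real.norm_eq_abs, cm_norm, mul_one, Complex.norm_ofNat]
      apply mul_le_mul _ (hM _ (cm_norm θ)) (abs_nonneg _) (by positivity)
      apply div_le_div₀ (by norm_num) le_rfl (by positivity)
      gcongr
    · exact intervalIntegrable_const
    · filter_upwards with θ _ x hxb
      have hne := sub_ne (hx x hxb).1 (cm_norm θ)
      have e1 : HasDerivAt (fun x => herglotzRieszKernel 0 x (circleMap 0 1 θ))
          (2 * circleMap 0 1 θ / (circleMap 0 1 θ - x) ^ 2) x := by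
        have a1 : HasDerivAt (fun x => circleMap 0 1 θ + x) 1 x := (hasDerivAt_id x).const_add _
        have a2 : HasDerivAt (fun x => circleMap 0 1 θ - x) (-1) x := (hasDerivAt_id x).const_sub _
        have a3 := a1.div a2 hne
        have e : (fun x => herglotzRieszKernel 0 x (circleMap 0 1 θ)) =
            (fun x => circleMap 0 1 θ + x) / (fun x => circleMap 0 1 θ - x) := by
          funext x
          simp [herglotzRieszKernel_def]
        rw [e]
        refine a3.congr_deriv ?_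
        ring
      have e2 := e1.mul_const ((u (circleMap 0 1 θ) : ℝ) : ℂ)
      exact e2
  have key2 := (key.const_smul ((2 * Real.pi)⁻¹)).const_mul I
  unfold sa sd Real.circleAverage
  exact key2

theorem sa_diff {u : ℂ → ℝ} (hu : Measurable u) {M : ℝ} (hM : ∀ ζ : ℂ, ‖ζ‖ = 1 → |u ζ| ≤ M) :
    DifferentiableOn ℂ (sa u) (ball 0 1) := fun w hw =>
  (sa_hasDeriv hu hM (mem_ball_zero_iff.1 hw)).differentiableAt.differentiableWithinAt

theorem sa_im {u : ℂ → ℝ} (hu : Measurable u) {M : ℝ} (hM : ∀ ζ : ℂ, ‖ζ‖ = 1 → |u ζ| ≤ M) {w : ℂ}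
    (hw : ‖w‖ < 1) : (sa u w).im = Real.circleAverage ((Complex.re ∘ herglotzRieszKernel 0 w) • u) 0 1 := by
  have h1 := re_circleAverage_herglotzRieszKernel_smul (ci_u hu hM) (mem_ball_zero_iff.2 hw)
  unfold sa
  rw [Complex.I_mul_im]
  exact h1

theorem re_kernel_nonneg {w ζ : ℂ} (hw : ‖w‖ < 1) (hζ : ‖ζ‖ = 1) : 0 ≤ (herglotzRieszKernel 0 w ζ).re := by
  have h := le_re_herglotzRieszKernel (c := 0) (R := 1) (z := ζ) (w := w) (by simpa using hζ) (by simpa using hw)
  rw [herglotzRieszKernel_def]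
  refine le_trans ?_ h
  apply div_nonneg <;> simp only [sub_zero] <;> linarith [norm_nonneg w]

theorem kernel_cont {w : ℂ} (hw : ‖w‖ < 1) : ContinuousOn (Complex.re ∘ herglotzRieszKernel 0 w) (sphere 0 |(1:ℝ)|) := by
  apply Complex.continuous_re.comp_continuousOn
  exact continuousOn_herglotzRieszKernel_sphere (R := 1) (mem_ball_zero_iff.2 hw)

theorem kernel_one {w : ℂ} (hw : ‖w‖ < 1) (c : ℝ) :
    Real.circleAverage ((Complex.re ∘ herglotzRieszKernel 0 w) • fun _ : ℂ => c) 0 1 = c := by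
  have h1 : DiffContOnCl ℂ (fun _ : ℂ => (c : ℂ)) (ball 0 1) := diffContOnCl_const
  have h2 := h1.circleAverage_re_herglotzRieszKernel_smul (w := w) (mem_ball_zero_iff.2 hw)
  have h3 : CircleIntegrable ((Complex.re ∘ herglotzRieszKernel 0 w) • fun _ : ℂ => (c : ℂ)) 0 1 := by
    apply ContinuousOn.circleIntegrable'
    exact (kernel_cont hw).smul continuousOn_const
  have h4 := Complex.reCLM.circleAverage_comp_comm h3
  rw [h2] at h4
  have h5 : (Complex.reCLM ∘ ((Complex.re ∘ herglotzRieszKernel 0 w) • fun _ : ℂ => (c : ℂ))) =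
      ((Complex.re ∘ herglotzRieszKernel 0 w) • fun _ : ℂ => c) := by
    funext ζ
    simp
  rw [h5] at h4
  simpa using h4

/-- the imaginary part of the difference of `H` and the Schwarz integral is a Poisson integral -/
theorem im_bound {u : ℂ → ℝ} (hu : Measurable u) {H : ℂ → ℂ} (hH : DiffContOnCl ℂ H (ball 0 1)) {M : ℝ}
    (hM : ∀ ζ : ℂ, ‖ζ‖ = 1 → |(H ζ).im - u ζ| ≤ M) {M' : ℝ} (hM' : ∀ ζ : ℂ, ‖ζ‖ = 1 → |u ζ| ≤ M') {w : ℂ} (hw : ‖w‖ < 1) :
    |(H w - sa u w).im| ≤ M := by
  have hwb : w ∈ ball (0 : ℂ) 1 := mem_ball_zero_iff.2 hw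
  have hsc : ContinuousOn H (sphere (0 : ℂ) |(1 : ℝ)|) := by
    apply hH.2.mono
    rw [abs_one, closure_ball (0 : ℂ) one_ne_zero]
    exact sphere_subset_closedBall
  have i1 : CircleIntegrable ((Complex.re ∘ herglotzRieszKernel 0 w) • H) 0 1 := by
    apply ContinuousOn.circleIntegrable'
    exact (kernel_cont hw).smul hsc
  have h2 := hH.circleAverage_re_herglotzRieszKernel_smul (w := w) hwb
  have h4 := Complex.imCLM.circleAverage_comp_comm i1
  rw [h2] at h4
  have h5 : (Complex.imCLM ∘ ((Complex.re ∘ herglotzRieszKernel 0 w) • H)) =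
      ((Complex.re ∘ herglotzRieszKernel 0 w) • fun ζ => (H ζ).im) := by
    funext ζ
    simp
  rw [h5] at h4
  have h6 : (H w).im = Real.circleAverage ((Complex.re ∘ herglotzRieszKernel 0 w) • fun ζ => (H ζ).im) 0 1 := h4.symm
  have i2 : CircleIntegrable ((Complex.re ∘ herglotzRieszKernel 0 w) • fun ζ => (H ζ).im) 0 1 := by
    apply ContinuousOn.circleIntegrable'
    exact (kernel_cont hw).smul (Complex.continuous_im.comp_continuousOn hsc)
  have i3 : CircleIntegrable ((Complex.re ∘ herglotzRieszKernel 0 w) • u) 0 1 :=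
    (ci_u hu hM').continuousOn_smul (kernel_cont hw)
  have h7 : (H w - sa u w).im = Real.circleAverage ((Complex.re ∘ herglotzRieszKernel 0 w) • fun ζ => (H ζ).im - u ζ) 0 1 := by
    rw [Complex.sub_im, h6, sa_im hu hM' hw, ← Real.circleAverage_sub i2 i3]
    congr 1
    funext ζ
    simp only [Pi.smul_apply', Pi.sub_apply, Pi.mul_apply, smul_eq_mul]
    ring
  have i4 : CircleIntegrable ((Complex.re ∘ herglotzRieszKernel 0 w) • fun ζ => (H ζ).im - u ζ) 0 1 := by
    have := i2.sub i3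
    refine this.congr ?_
    intro ζ _
    simp only [Pi.smul_apply', Pi.sub_apply, Pi.mul_apply, smul_eq_mul]
    ring
  have i5 : ∀ c : ℝ, CircleIntegrable ((Complex.re ∘ herglotzRieszKernel 0 w) • fun _ : ℂ => c) 0 1 := fun c => by
    apply ContinuousOn.circleIntegrable'
    exact (kernel_cont hw).smul continuousOn_const
  rw [h7, abs_le]
  constructor
  · rw [← kernel_one hw (-M)]
    apply Real.circleAverage_mono (i5 _) i4
    intro ζ hζ
    rw [mem_sphere_zero_iff_norm, abs_one] at hζ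
    simp only [Pi.smul_apply', Function.comp, smul_eq_mul]
    exact mul_le_mul_of_nonneg_left (neg_le_of_abs_le (hM ζ hζ)) (re_kernel_nonneg hw hζ)
  · rw [← kernel_one hw M]
    apply Real.circleAverage_mono i4 (i5 _)
    intro ζ hζ
    rw [mem_sphere_zero_iff_norm, abs_one] at hζ
    simp only [Pi.smul_apply', Function.comp, smul_eq_mul]
    exact mul_le_mul_of_nonneg_left (le_of_abs_le (hM ζ hζ)) (re_kernel_nonneg hw hζ)

end Pool.Agent.Helper63x.TC
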