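import Mathlib
import Pool.Agent.Helper63x.TC.Ker

/-! The mean of the derivative of the Schwarz integral is controlled by the oscillation of `u`. -/

set_option autoImplicit false
open Complex Metric Set Filter Topology MeasureTheory

namespace Pool.Agent.Helper63x.TC

/-- `∫ |u (e^{i(x+h)}) - u (e^{ix})| dx` -/
noncomputable def osc (u : ℂ → ℝ) (h : ℝ) : ENNReal :=
  ∫⁻ x in Ioc 0 (2 * Real.pi), ENNReal.ofReal |u (circleMap 0 1 (x + h)) - u (circleMap 0 1 x)|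

/-- the Gagliardo seminorm of `W^{t,1}` of the circle -/
noncomputable def gag (t : ℝ) (u : ℂ → ℝ) : ENNReal :=
  ∫⁻ h in Ioc (-Real.pi) Real.pi, ENNReal.ofReal (|h| ^ (-(1 + t))) * osc u h

theorem av_zero {w : ℂ} (hw : ‖w‖ < 1) : Real.circleAverage (fun ζ : ℂ => 2 * ζ / (ζ - w) ^ 2) 0 1 = 0 := by
  rw [Real.circleAverage_eq_circleIntegral one_ne_zero]
  have h1 : (∮ z in C(0, 1), (z - 0)⁻¹ • (2 * z / (z - w) ^ 2)) = ∮ z in C(0, 1), 2 * (z - w) ^ (-2 : ℤ) := by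
    apply circleIntegral.integral_congr zero_le_one
    intro z hz
    rw [mem_sphere_zero_iff_norm] at hz
    have hz0 : z ≠ 0 := by
      rintro rfl
      simp at hz
    have hne := sub_ne hw hz
    simp only [smul_eq_mul, sub_zero, zpow_neg]
    rw [show ((2 : ℤ)) = ((2 : ℕ) : ℤ) by norm_num, zpow_natCast]
    field_simp
  rw [h1]
  have h2 : (∮ z in C(0, 1), 2 * (z - w) ^ (-2 : ℤ)) = 2 * ∮ z in C(0, 1), (z - w) ^ (-2 : ℤ) := by
    simp only [← smul_eq_mul, circleIntegral.integral_smul]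
  rw [h2, circleIntegral.integral_sub_zpow_of_ne (by norm_num)]
  simp

theorem cm_add (x h : ℝ) : circleMap 0 1 (x + h) = circleMap 0 1 x * circleMap 0 1 h := by
  simp only [circleMap_zero, Complex.ofReal_one, one_mul, Complex.ofReal_add, add_mul, Complex.exp_add]

theorem cm_rho (ρ x : ℝ) : circleMap 0 ρ x = (ρ : ℂ) * circleMap 0 1 x := by
  simp only [circleMap_zero, Complex.ofReal_one, one_mul]

theorem normsq_eq (ρ h : ℝ) : ‖circleMap 0 1 h - (ρ : ℂ)‖ ^ 2 = (1 - ρ) ^ 2 + 2 * ρ * (1 - Real.cos h) := by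
  rw [← Complex.normSq_eq_norm_sq, Complex.normSq_apply]
  have h1 : (circleMap 0 1 h).re = Real.cos h := by
    simp [circleMap_zero, Complex.exp_ofReal_mul_I_re]
  have h2 : (circleMap 0 1 h).im = Real.sin h := by
    simp [circleMap_zero, Complex.exp_ofReal_mul_I_im]
  rw [Complex.sub_re, Complex.sub_im, Complex.ofReal_re, Complex.ofReal_im, h1, h2]
  nlinarith [Real.sin_sq_add_cos_sq h]

theorem kernel_lower {ρ h : ℝ} (hρ : 1 / 2 ≤ ρ) (hh : |h| ≤ Real.pi) :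
    ((1 - ρ) ^ 2 + h ^ 2) / 5 ≤ ‖circleMap 0 1 h - (ρ : ℂ)‖ ^ 2 := by
  rw [normsq_eq]
  have h1 := Real.cos_le_one_sub_mul_cos_sq hh
  have h2 : Real.pi ^ 2 ≤ 10 := by
    have := Real.pi_lt_d2
    have := Real.pi_pos
    nlinarith
  have h3 : 1 / 5 ≤ 2 / Real.pi ^ 2 := by
    rw [div_le_div_iff₀ (by norm_num) (by positivity)]
    linarith
  have h4 : h ^ 2 / 5 ≤ 1 - Real.cos h := by nlinarith [sq_nonneg h]
  have h5 : h ^ 2 / 5 ≤ 2 * ρ * (1 - Real.cos h) := by nlinarith [sq_nonneg h]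
  nlinarith [sq_nonneg (1 - ρ)]

theorem sd_bound {u : ℂ → ℝ} (hu : Measurable u) {M : ℝ} (hM : ∀ ζ : ℂ, ‖ζ‖ = 1 → |u ζ| ≤ M) {ρ : ℝ} (h0 : 0 ≤ ρ)
    (h1 : ρ < 1) (x : ℝ) : ‖sd u (circleMap 0 ρ x)‖ₑ ≤ ∫⁻ h in Ioc (-Real.pi) Real.pi,
      ENNReal.ofReal (Real.pi⁻¹ * (‖circleMap 0 1 h - (ρ : ℂ)‖ ^ 2)⁻¹) *
        ENNReal.ofReal |u (circleMap 0 1 (x + h)) - u (circleMap 0 1 x)| := by
  have hpi := Real.pi_pos
  set w := circleMap 0 ρ x with hw
  have hwn : ‖w‖ < 1 := by rw [hw, norm_circleMap_zero, abs_of_nonneg h0]; exact h1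
  set c : ℝ := u (circleMap 0 1 x) with hc
  have hcm : Measurable fun θ : ℝ => circleMap 0 1 θ := (continuous_circleMap 0 1).measurable
  have hk : ContinuousOn (fun ζ : ℂ => 2 * ζ / (ζ - w) ^ 2) (sphere 0 |(1:ℝ)|) := by
    apply ContinuousOn.div (by fun_prop) (by fun_prop)
    intro ζ hζ
    rw [mem_sphere_zero_iff_norm, abs_one] at hζ
    exact pow_ne_zero _ (sub_ne hwn hζ)
  have i1 : CircleIntegrable (fun ζ => 2 * ζ / (ζ - w) ^ 2 * (u ζ : ℂ)) 0 1 := by
    have h2 : CircleIntegrable (fun ζ => (u ζ : ℂ)) 0 1 := by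
      have := ci_u hu hM
      simp only [CircleIntegrable, intervalIntegrable_iff] at this ⊢
      exact Complex.ofRealCLM.integrable_comp this
    exact h2.continuousOn_smul hk
  have i2 : CircleIntegrable (fun ζ => 2 * ζ / (ζ - w) ^ 2 * (c : ℂ)) 0 1 := by
    apply ContinuousOn.circleIntegrable'
    exact hk.mul continuousOn_const
  have e1 : Real.circleAverage (fun ζ => 2 * ζ / (ζ - w) ^ 2 * (c : ℂ)) 0 1 = 0 := by
    have h2 : (fun ζ => 2 * ζ / (ζ - w) ^ 2 * (c : ℂ)) = fun ζ => (c : ℂ) • (2 * ζ / (ζ - w) ^ 2) := by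
      funext ζ
      rw [smul_eq_mul, mul_comm]
    rw [h2, Real.circleAverage_fun_smul, av_zero hwn, smul_zero]
  have e2 : sd u w = I * Real.circleAverage (fun ζ => 2 * ζ / (ζ - w) ^ 2 * ((u ζ - c : ℝ) : ℂ)) 0 1 := by
    unfold sd
    congr 1
    have h2 : (fun ζ => 2 * ζ / (ζ - w) ^ 2 * ((u ζ - c : ℝ) : ℂ)) =
        fun ζ => 2 * ζ / (ζ - w) ^ 2 * (u ζ : ℂ) - 2 * ζ / (ζ - w) ^ 2 * (c : ℂ) := by
      funext ζ
      push_cast
      ring
    rw [h2, Real.circleAverage_fun_sub i1 i2, e1, sub_zero]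
  set G : ℝ → ℂ := fun θ => 2 * circleMap 0 1 θ / (circleMap 0 1 θ - w) ^ 2 * ((u (circleMap 0 1 θ) - c : ℝ) : ℂ) with hG
  have hper : Function.Periodic G (2 * Real.pi) := by
    intro θ
    simp only [hG, periodic_circleMap 0 1 θ]
  have e3 : (∫ θ in (0:ℝ)..(2 * Real.pi), G θ) = ∫ h in (-Real.pi)..Real.pi, G (x + h) := by
    have a1 := hper.intervalIntegral_add_eq 0 (x - Real.pi)
    rw [zero_add] at a1
    rw [a1]
    have a2 := intervalIntegral.integral_comp_add_left (a := -Real.pi) (b := Real.pi) G x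
    rw [a2]
    congr 1
    ring
  have e4 : sd u w = I * ((2 * Real.pi)⁻¹ • ∫ h in (-Real.pi)..Real.pi, G (x + h)) := by
    rw [e2, ← e3]
    rfl
  have e5 : ‖sd u w‖ₑ = ENNReal.ofReal ((2 * Real.pi)⁻¹) * ‖∫ h in (-Real.pi)..Real.pi, G (x + h)‖ₑ := by
    rw [e4, enorm_mul, enorm_smul, ← ofReal_norm, Complex.norm_I, ENNReal.ofReal_one, one_mul,
      Real.enorm_eq_ofReal (by positivity)]
  rw [e5, intervalIntegral.integral_of_le (by linarith)]
  calc ENNReal.ofReal ((2 * Real.pi)⁻¹) * ‖∫ h in Ioc (-Real.pi) Real.pi, G (x + h)‖ₑ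
      ≤ ENNReal.ofReal ((2 * Real.pi)⁻¹) * ∫⁻ h in Ioc (-Real.pi) Real.pi, ‖G (x + h)‖ₑ := by
        gcongr
        exact enorm_integral_le_lintegral_enorm _
    _ = ∫⁻ h in Ioc (-Real.pi) Real.pi, ENNReal.ofReal ((2 * Real.pi)⁻¹) * ‖G (x + h)‖ₑ := by
        rw [lintegral_const_mul']
        exact ENNReal.ofReal_ne_top
    _ = _ := by
        apply lintegral_congr
        intro h
        have a1 : ‖G (x + h)‖ = 2 * (‖circleMap 0 1 h - (ρ : ℂ)‖ ^ 2)⁻¹ *
            |u (circleMap 0 1 (x + h)) - u (circleMap 0 1 x)| := by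
          have a2 : circleMap 0 1 (x + h) - w = circleMap 0 1 x * (circleMap 0 1 h - (ρ : ℂ)) := by
            have a3 : w = (ρ : ℂ) * circleMap 0 1 x := cm_rho ρ x
            rw [a3, cm_add]
            ring
          simp only [hG]
          rw [a2, norm_mul, norm_div, norm_mul, norm_pow, cm_norm, mul_one, Complex.norm_real, Real.norm_eq_abs,
            Complex.norm_ofNat, norm_mul, cm_norm, one_mul, div_eq_mul_inv]
        rw [← ofReal_norm, a1, ← ENNReal.ofReal_mul (by positivity), ← ENNReal.ofReal_mul (by positivity)]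
        congr 1
        rw [mul_inv]
        ring

/-- the kernel integral on the half line -/
theorem half_line {t : ℝ} (h0 : 0 < t) (h1 : t < 1) {b : ℝ} (hb : 0 < b) :
    ∫⁻ x in Ioi (0:ℝ), ENNReal.ofReal (x ^ (-t) * (x ^ 2 + b ^ 2)⁻¹) ≤
      ENNReal.ofReal ((1 / (1 - t) + 1) * b ^ (-(1 + t))) := by
  have hsplit : Ioi (0:ℝ) = Ioc 0 b ∪ Ioi b := (Ioc_union_Ioi_eq_Ioi hb.le).symm
  have p1 : ∫⁻ x in Ioc (0:ℝ) b, ENNReal.ofReal (x ^ (-t) * (x ^ 2 + b ^ 2)⁻¹) ≤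
      ENNReal.ofReal (1 / (1 - t) * b ^ (-(1 + t))) := by
    have i1 : IntegrableOn (fun x : ℝ => x ^ (-t)) (Ioc 0 b) := by
      rw [← intervalIntegrable_iff_integrableOn_Ioc_of_le hb.le]
      exact intervalIntegral.intervalIntegrable_rpow' (by linarith)
    have e1 : ∫ x in Ioc (0:ℝ) b, x ^ (-t) = b ^ (1 - t) / (1 - t) := by
      rw [← intervalIntegral.integral_of_le hb.le, integral_rpow (Or.inl (by linarith))]
      rw [Real.zero_rpow (by linarith), sub_zero, neg_add_eq_sub]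
    calc ∫⁻ x in Ioc (0:ℝ) b, ENNReal.ofReal (x ^ (-t) * (x ^ 2 + b ^ 2)⁻¹)
        ≤ ∫⁻ x in Ioc (0:ℝ) b, ENNReal.ofReal ((b ^ 2)⁻¹) * ENNReal.ofReal (x ^ (-t)) := by
          apply setLIntegral_mono' measurableSet_Ioc
          intro x hx
          rw [← ENNReal.ofReal_mul (by positivity), mul_comm]
          apply ENNReal.ofReal_le_ofReal
          apply mul_le_mul_of_nonneg_right _ (Real.rpow_nonneg hx.1.le _)
          apply inv_anti₀ (by positivity)
          nlinarith [sq_nonneg x]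
      _ = ENNReal.ofReal ((b ^ 2)⁻¹) * ∫⁻ x in Ioc (0:ℝ) b, ENNReal.ofReal (x ^ (-t)) := by
          rw [lintegral_const_mul']
          exact ENNReal.ofReal_ne_top
      _ = ENNReal.ofReal ((b ^ 2)⁻¹) * ENNReal.ofReal (b ^ (1 - t) / (1 - t)) := by
          rw [← e1, ofReal_integral_eq_lintegral_ofReal i1]
          filter_upwards [ae_restrict_mem measurableSet_Ioc] with x hx
          exact Real.rpow_nonneg hx.1.le _
      _ = ENNReal.ofReal (1 / (1 - t) * b ^ (-(1 + t))) := by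
          rw [← ENNReal.ofReal_mul (by positivity)]
          congr 1
          have : b ^ (1 - t) = b ^ 2 * b ^ (-(1 + t)) := by
            rw [← Real.rpow_natCast b 2, ← Real.rpow_add hb]
            congr 1
            push_cast
            ring
          rw [this]
          have hb2 : b ^ 2 ≠ 0 := by positivity
          field_simp
  have p2 : ∫⁻ x in Ioi b, ENNReal.ofReal (x ^ (-t) * (x ^ 2 + b ^ 2)⁻¹) ≤ ENNReal.ofReal (b ^ (-(1 + t))) := by
    have i1 : IntegrableOn (fun x : ℝ => x ^ (-t - 2)) (Ioi b) := integrableOn_Ioi_rpow_of_lt (by linarith) hb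
    have e1 : ∫ x in Ioi b, x ^ (-t - 2) = b ^ (-(1 + t)) / (1 + t) := by
      rw [integral_Ioi_rpow_of_lt (by linarith) hb]
      have : -t - 2 + 1 = -(1 + t) := by ring
      rw [this, div_neg, neg_div, neg_neg]
    calc ∫⁻ x in Ioi b, ENNReal.ofReal (x ^ (-t) * (x ^ 2 + b ^ 2)⁻¹)
        ≤ ∫⁻ x in Ioi b, ENNReal.ofReal (x ^ (-t - 2)) := by
          apply setLIntegral_mono' measurableSet_Ioi
          intro x hx
          have hx0 : 0 < x := hb.trans hx
          apply ENNReal.ofReal_le_ofReal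
          rw [Real.rpow_sub hx0, div_eq_mul_inv]
          apply mul_le_mul_of_nonneg_left _ (Real.rpow_nonneg hx0.le _)
          rw [show ((2:ℝ)) = ((2:ℕ):ℝ) by norm_num, Real.rpow_natCast]
          apply inv_anti₀ (by positivity)
          nlinarith [sq_nonneg b]
      _ = ENNReal.ofReal (b ^ (-(1 + t)) / (1 + t)) := by
          rw [← e1, ofReal_integral_eq_lintegral_ofReal i1]
          filter_upwards [ae_restrict_mem measurableSet_Ioi] with x hx
          exact Real.rpow_nonneg (hb.trans hx).le _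
      _ ≤ _ := by
          apply ENNReal.ofReal_le_ofReal
          exact div_le_self (Real.rpow_nonneg hb.le _) (by linarith)
  rw [hsplit]
  refine (lintegral_union_le _ _ _).trans ((add_le_add p1 p2).trans ?_)
  rw [← ENNReal.ofReal_add (by have : 0 < 1 - t := by linarith
                               positivity) (by positivity)]
  apply ENNReal.ofReal_le_ofReal
  linarith

/-- the constant -/
noncomputable def Kt (t : ℝ) : ℝ := 5 * Real.pi⁻¹ * (1 / (1 - t) + 1)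

theorem kernel_int {t : ℝ} (h0 : 0 < t) (h1 : t < 1) {h : ℝ} (hh : |h| ≤ Real.pi) (hh0 : h ≠ 0) :
    ∫⁻ ρ in Ioo (1 / 2 : ℝ) 1, ENNReal.ofReal ((1 - ρ ^ 2) ^ (-t)) *
      ENNReal.ofReal (Real.pi⁻¹ * (‖circleMap 0 1 h - (ρ : ℂ)‖ ^ 2)⁻¹) ≤
      ENNReal.ofReal (Kt t) * ENNReal.ofReal (|h| ^ (-(1 + t))) := by
  have hpi := Real.pi_pos
  have hb : 0 < |h| := abs_pos.2 hh0
  set G : ℝ → ENNReal := fun x => (Ioi (0:ℝ)).indicator (fun x => ENNReal.ofReal (x ^ (-t) * (x ^ 2 + |h| ^ 2)⁻¹)) x with hG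
  calc ∫⁻ ρ in Ioo (1 / 2 : ℝ) 1, ENNReal.ofReal ((1 - ρ ^ 2) ^ (-t)) *
      ENNReal.ofReal (Real.pi⁻¹ * (‖circleMap 0 1 h - (ρ : ℂ)‖ ^ 2)⁻¹)
      ≤ ∫⁻ ρ in Ioo (1 / 2 : ℝ) 1, ENNReal.ofReal (5 * Real.pi⁻¹) * G (1 - ρ) := by
        apply setLIntegral_mono' measurableSet_Ioo
        intro ρ hρ
        have hr : 0 < 1 - ρ := by linarith [hρ.2]
        have hk := kernel_lower hρ.1.le hh
        have hpos : 0 < ((1 - ρ) ^ 2 + h ^ 2) / 5 := by positivity
        simp only [hG]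
        have hr2 : 0 ≤ (1 - ρ ^ 2) ^ (-t) := Real.rpow_nonneg (by nlinarith [hρ.1, hρ.2]) _
        rw [indicator_of_mem (show 1 - ρ ∈ Ioi (0:ℝ) from hr), ← ENNReal.ofReal_mul hr2,
          ← ENNReal.ofReal_mul (by positivity)]
        apply ENNReal.ofReal_le_ofReal
        have a1 : (1 - ρ ^ 2) ^ (-t) ≤ (1 - ρ) ^ (-t) := by
          apply Real.rpow_le_rpow_of_nonpos hr _ (by linarith)
          nlinarith [hρ.1, hρ.2]
        have a2 : (‖circleMap 0 1 h - (ρ : ℂ)‖ ^ 2)⁻¹ ≤ 5 * ((1 - ρ) ^ 2 + |h| ^ 2)⁻¹ := by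
          calc (‖circleMap 0 1 h - (ρ : ℂ)‖ ^ 2)⁻¹ ≤ (((1 - ρ) ^ 2 + h ^ 2) / 5)⁻¹ := inv_anti₀ hpos hk
            _ = _ := by rw [sq_abs, inv_div, div_eq_mul_inv]
        calc (1 - ρ ^ 2) ^ (-t) * (Real.pi⁻¹ * (‖circleMap 0 1 h - (ρ : ℂ)‖ ^ 2)⁻¹)
            ≤ (1 - ρ) ^ (-t) * (Real.pi⁻¹ * (5 * ((1 - ρ) ^ 2 + |h| ^ 2)⁻¹)) := by
              apply mul_le_mul a1 _ (by positivity) (Real.rpow_nonneg hr.le _)
              exact mul_le_mul_of_nonneg_left a2 (by positivity)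
          _ = _ := by ring
    _ ≤ ∫⁻ ρ : ℝ, ENNReal.ofReal (5 * Real.pi⁻¹) * G (1 - ρ) := setLIntegral_le_lintegral _ _
    _ = ENNReal.ofReal (5 * Real.pi⁻¹) * ∫⁻ ρ : ℝ, G (1 - ρ) := by
        rw [lintegral_const_mul']
        exact ENNReal.ofReal_ne_top
    _ = ENNReal.ofReal (5 * Real.pi⁻¹) * ∫⁻ ρ : ℝ, G ρ := by
        rw [lintegral_sub_left_eq_self]
    _ = ENNReal.ofReal (5 * Real.pi⁻¹) * ∫⁻ x in Ioi (0:ℝ), ENNReal.ofReal (x ^ (-t) * (x ^ 2 + |h| ^ 2)⁻¹) := by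
        congr 1
        exact lintegral_indicator measurableSet_Ioi _
    _ ≤ ENNReal.ofReal (5 * Real.pi⁻¹) * ENNReal.ofReal ((1 / (1 - t) + 1) * |h| ^ (-(1 + t))) := by
        gcongr
        exact half_line h0 h1 hb
    _ = _ := by
        rw [← ENNReal.ofReal_mul (by positivity), ← ENNReal.ofReal_mul]
        · congr 1
          unfold Kt
          ring
        · unfold Kt
          have : 0 < 1 - t := by linarith
          positivity

theorem meas_osc {u : ℂ → ℝ} (hu : Measurable u) : Measurable fun p : ℝ × ℝ =>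
    ENNReal.ofReal |u (circleMap 0 1 (p.1 + p.2)) - u (circleMap 0 1 p.1)| := by
  have hcm : Measurable fun θ : ℝ => u (circleMap 0 1 θ) := meas_u hu
  apply ENNReal.measurable_ofReal.comp
  have a1 : Measurable fun p : ℝ × ℝ => u (circleMap 0 1 (p.1 + p.2)) := hcm.comp (measurable_fst.add measurable_snd)
  have a2 : Measurable fun p : ℝ × ℝ => u (circleMap 0 1 p.1) := hcm.comp measurable_fst
  exact (a1.sub a2).abs

/-- the interchange of the integrations -/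
theorem tonelli {I J L : Set ℝ} (hI : MeasurableSet I) (w g : ℝ → ENNReal) (K O S : ℝ → ℝ → ENNReal) (c : ENNReal)
    (hw : Measurable w) (hK : Measurable (Function.uncurry K)) (hO : Measurable (Function.uncurry O))
    (hwt : ∀ ρ, w ρ ≠ ⊤) (hKt : ∀ ρ h, K ρ h ≠ ⊤) (hct : c ≠ ⊤)
    (hS : ∀ ρ ∈ I, ∀ x, S ρ x ≤ ∫⁻ h in L, K ρ h * O x h)
    (hk : ∀ᵐ h ∂(volume.restrict L), ∫⁻ ρ in I, w ρ * K ρ h ≤ c * g h) :
    ∫⁻ ρ in I, w ρ * ∫⁻ x in J, S ρ x ≤ c * ∫⁻ h in L, g h * ∫⁻ x in J, O x h := by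
  have hOm : Measurable fun h => ∫⁻ x in J, O x h := (hO.comp measurable_swap).lintegral_prod_right'
  have hOx : ∀ h, Measurable fun x => O x h := fun h => hO.comp (measurable_id.prodMk measurable_const)
  have hKh : ∀ ρ, Measurable fun h => K ρ h := fun ρ => hK.comp (measurable_const.prodMk measurable_id)
  have hKr : ∀ h, Measurable fun ρ => K ρ h := fun h => hK.comp (measurable_id.prodMk measurable_const)
  have s1 : ∀ ρ ∈ I, w ρ * ∫⁻ x in J, S ρ x ≤ ∫⁻ h in L, (w ρ * K ρ h) * ∫⁻ x in J, O x h := by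
    intro ρ hρ
    have a1 : ∫⁻ x in J, S ρ x ≤ ∫⁻ x in J, ∫⁻ h in L, K ρ h * O x h := lintegral_mono fun x => hS ρ hρ x
    have a2 : ∫⁻ x in J, ∫⁻ h in L, K ρ h * O x h = ∫⁻ h in L, ∫⁻ x in J, K ρ h * O x h := by
      apply lintegral_lintegral_swap
      apply Measurable.aemeasurable
      exact ((hKh ρ).comp measurable_snd).mul hO
    have a3 : ∫⁻ h in L, ∫⁻ x in J, K ρ h * O x h = ∫⁻ h in L, K ρ h * ∫⁻ x in J, O x h := by
      apply lintegral_congr
      intro h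
      exact lintegral_const_mul' _ _ (hKt ρ h)
    rw [a2, a3] at a1
    calc w ρ * ∫⁻ x in J, S ρ x ≤ w ρ * ∫⁻ h in L, K ρ h * ∫⁻ x in J, O x h := by gcongr
      _ = ∫⁻ h in L, w ρ * (K ρ h * ∫⁻ x in J, O x h) := (lintegral_const_mul' _ _ (hwt ρ)).symm
      _ = _ := by
        apply lintegral_congr
        intro h
        rw [mul_assoc]
  calc ∫⁻ ρ in I, w ρ * ∫⁻ x in J, S ρ x ≤ ∫⁻ ρ in I, ∫⁻ h in L, (w ρ * K ρ h) * ∫⁻ x in J, O x h :=
        setLIntegral_mono' hI s1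
    _ = ∫⁻ h in L, ∫⁻ ρ in I, (w ρ * K ρ h) * ∫⁻ x in J, O x h := by
        apply lintegral_lintegral_swap
        apply Measurable.aemeasurable
        exact ((hw.comp measurable_fst).mul hK).mul (hOm.comp measurable_snd)
    _ ≤ ∫⁻ h in L, c * (g h * ∫⁻ x in J, O x h) := by
        apply lintegral_mono_ae
        filter_upwards [hk] with h hh
        have b1 : Measurable fun ρ => w ρ * K ρ h := hw.mul (hKr h)
        rw [lintegral_mul_const _ b1, ← mul_assoc]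
        gcongr
    _ = _ := lintegral_const_mul' _ _ hct

/-- **the weighted mean of the derivative** -/
theorem weighted {u : ℂ → ℝ} (hu : Measurable u) {M : ℝ} (hM : ∀ ζ : ℂ, ‖ζ‖ = 1 → |u ζ| ≤ M) {t : ℝ} (h0 : 0 < t)
    (h1 : t < 1) : ∫⁻ ρ in Ioo (1 / 2 : ℝ) 1, ENNReal.ofReal ((1 - ρ ^ 2) ^ (-t)) *
      ∫⁻ x in Ioc 0 (2 * Real.pi), ‖sd u (circleMap 0 ρ x)‖ₑ ≤ ENNReal.ofReal (Kt t) * gag t u := by
  unfold gag osc
  apply tonelli measurableSet_Ioo (fun ρ => ENNReal.ofReal ((1 - ρ ^ 2) ^ (-t))) (fun h => ENNReal.ofReal (|h| ^ (-(1 + t))))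
    (fun ρ h => ENNReal.ofReal (Real.pi⁻¹ * (‖circleMap 0 1 h - (ρ : ℂ)‖ ^ 2)⁻¹))
    (fun x h => ENNReal.ofReal |u (circleMap 0 1 (x + h)) - u (circleMap 0 1 x)|)
    (fun ρ x => ‖sd u (circleMap 0 ρ x)‖ₑ) (ENNReal.ofReal (Kt t))
  · apply ENNReal.measurable_ofReal.comp
    exact (((measurable_id.pow_const 2).const_sub 1).pow_const (-t))
  · apply ENNReal.measurable_ofReal.comp
    apply Measurable.const_mul
    apply Measurable.inv
    apply Measurable.pow_const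
    apply Measurable.norm
    exact ((continuous_circleMap 0 1).measurable.comp measurable_snd).sub (Complex.measurable_ofReal.comp measurable_fst)
  · exact meas_osc hu
  · exact fun ρ => ENNReal.ofReal_ne_top
  · exact fun ρ h => ENNReal.ofReal_ne_top
  · exact ENNReal.ofReal_ne_top
  · intro ρ hρ x
    exact sd_bound hu hM (by linarith [hρ.1]) hρ.2 x
  · have hae : ∀ᵐ h : ℝ ∂volume, h ≠ 0 := by
      have : ({0} : Set ℝ)ᶜ ∈ ae (volume : Measure ℝ) := compl_mem_ae_iff.2 Real.volume_singleton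
      filter_upwards [this] with h hh
      exact hh
    filter_upwards [ae_restrict_mem measurableSet_Ioc, ae_restrict_of_ae hae] with h hh hh0
    exact kernel_int h0 h1 (abs_le.2 ⟨hh.1.le, hh.2⟩) hh0

end Pool.Agent.Helper63x.TC
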