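import Mathlib
import Pool.Agent.Helper63x.TC.Osc

/-! Functions of bounded variation, and functions that are near to them. -/

set_option autoImplicit false
open Complex Metric Set Filter Topology MeasureTheory

namespace Pool.Agent.Helper63x.TC

/-- the Gagliardo seminorm of a periodic function -/
noncomputable def gagl (t : ℝ) (w : ℝ → ℝ) : ENNReal :=
  ∫⁻ h in Ioc (-Real.pi) Real.pi, ENNReal.ofReal (|h| ^ (-(1 + t))) *
    ∫⁻ x in Ioc 0 (2 * Real.pi), ENNReal.ofReal |w (x + h) - w x|

theorem per_arg {w : ℝ → ℝ} (hw : Function.Periodic w (2 * Real.pi)) (x : ℝ) : w (circleMap 0 1 x).arg = w x := by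
  have h1 : circleMap 0 1 x = Complex.exp (x * I) := by simp [circleMap_zero]
  rw [h1, Complex.arg_exp_mul_I, toIocMod]
  exact hw.sub_zsmul_eq _

theorem gag_arg {w : ℝ → ℝ} (hw : Function.Periodic w (2 * Real.pi)) (t : ℝ) :
    gag t (fun ζ => w ζ.arg) = gagl t w := by
  unfold gag gagl osc
  simp only [per_arg hw]

theorem gag_neg (t : ℝ) (u : ℂ → ℝ) : gag t (fun ζ => -u ζ) = gag t u := by
  unfold gag osc
  congr 1
  funext h
  congr 1
  apply lintegral_congr
  intro x
  rw [neg_sub_neg, abs_sub_comm]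

/-- the shift of a monotone quasi-periodic function -/
theorem shift_int {W : ℝ → ℝ} (hW : Monotone W) {V : ℝ} (hp : ∀ x, W (x + 2 * Real.pi) = W x + V) (h : ℝ) :
    ∫ x in (0:ℝ)..(2 * Real.pi), (W (x + h) - W x) = V * h := by
  have hi : ∀ a b, IntervalIntegrable W volume a b := fun a b => hW.intervalIntegrable
  have hi2 : IntervalIntegrable (fun x => W (x + h)) volume 0 (2 * Real.pi) :=
    Monotone.intervalIntegrable (fun a b hab => hW (by linarith))
  rw [intervalIntegral.integral_sub hi2 (hi _ _)]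
  have e1 : ∫ x in (0:ℝ)..(2 * Real.pi), W (x + h) = ∫ x in h..(2 * Real.pi + h), W x := by
    rw [intervalIntegral.integral_comp_add_right (fun x => W x) h, zero_add]
  have e2 : ∫ x in (0:ℝ)..h, (W (x + 2 * Real.pi) - W x) = V * h := by
    have : ∀ x, W (x + 2 * Real.pi) - W x = V := fun x => by rw [hp]; ring
    simp only [this]
    rw [intervalIntegral.integral_const, smul_eq_mul, sub_zero, mul_comm]
  have hi3 : IntervalIntegrable (fun x => W (x + 2 * Real.pi)) volume 0 h :=
    Monotone.intervalIntegrable (fun a b hab => hW (by linarith))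
  rw [intervalIntegral.integral_sub hi3 (hi _ _), intervalIntegral.integral_comp_add_right (fun x => W x) (2 * Real.pi),
    zero_add] at e2
  rw [e1]
  have e3 := intervalIntegral.integral_add_adjacent_intervals (hi 0 h) (hi h (2 * Real.pi + h))
  have e4 := intervalIntegral.integral_add_adjacent_intervals (hi 0 (2 * Real.pi)) (hi (2 * Real.pi) (2 * Real.pi + h))
  have e5 : ∫ x in (2 * Real.pi)..(2 * Real.pi + h), W x = ∫ x in (2 * Real.pi)..(h + 2 * Real.pi), W x := by
    rw [add_comm h]
  linarith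

theorem shift_abs {W : ℝ → ℝ} (hW : Monotone W) {V : ℝ} (hp : ∀ x, W (x + 2 * Real.pi) = W x + V) (h : ℝ) :
    ∫⁻ x in Ioc 0 (2 * Real.pi), ENNReal.ofReal |W (x + h) - W x| = ENNReal.ofReal (V * |h|) := by
  have hpi := Real.pi_pos
  have hi2 : IntervalIntegrable (fun x => W (x + h) - W x) volume 0 (2 * Real.pi) :=
    (Monotone.intervalIntegrable (fun a b hab => hW (by linarith))).sub hW.intervalIntegrable
  rw [intervalIntegrable_iff_integrableOn_Ioc_of_le (by positivity)] at hi2
  have key := shift_int hW hp h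
  rw [intervalIntegral.integral_of_le (by positivity)] at key
  rw [← ofReal_integral_eq_lintegral_ofReal hi2.abs (Eventually.of_forall fun x => abs_nonneg _)]
  congr 1
  rcases le_total 0 h with hh | hh
  · have : ∀ x, |W (x + h) - W x| = W (x + h) - W x := fun x =>
      abs_of_nonneg (sub_nonneg.2 (hW (by linarith)))
    simp only [this]
    rw [key, abs_of_nonneg hh]
  · have : ∀ x, |W (x + h) - W x| = -(W (x + h) - W x) := fun x =>
      abs_of_nonpos (sub_nonpos.2 (hW (by linarith)))
    simp only [this]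
    rw [integral_neg, key, abs_of_nonpos hh]
    ring

theorem abs_int {t : ℝ} (h0 : 0 < t) (h1 : t < 1) : ∫⁻ h in Ioc (-Real.pi) Real.pi, ENNReal.ofReal (|h| ^ (-t)) ≤
    ENNReal.ofReal (2 * (Real.pi ^ (1 - t) / (1 - t))) := by
  have hpi := Real.pi_pos
  have i1 : IntegrableOn (fun x : ℝ => x ^ (-t)) (Ioc 0 Real.pi) := by
    rw [← intervalIntegrable_iff_integrableOn_Ioc_of_le hpi.le]
    exact intervalIntegral.intervalIntegrable_rpow' (by linarith)
  have e1 : ∫ x in Ioc (0:ℝ) Real.pi, x ^ (-t) = Real.pi ^ (1 - t) / (1 - t) := by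
    rw [← intervalIntegral.integral_of_le hpi.le, integral_rpow (Or.inl (by linarith))]
    rw [Real.zero_rpow (by linarith), sub_zero, neg_add_eq_sub]
  have p1 : ∫⁻ x in Ioc (0:ℝ) Real.pi, ENNReal.ofReal (|x| ^ (-t)) = ENNReal.ofReal (Real.pi ^ (1 - t) / (1 - t)) := by
    rw [← e1, ofReal_integral_eq_lintegral_ofReal i1]
    · apply setLIntegral_congr_fun measurableSet_Ioc
      intro x hx
      simp only
      rw [abs_of_pos hx.1]
    · filter_upwards [ae_restrict_mem measurableSet_Ioc] with x hx
      exact Real.rpow_nonneg hx.1.le _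
  have p2 : ∫⁻ x in Ioc (-Real.pi) 0, ENNReal.ofReal (|x| ^ (-t)) ≤ ENNReal.ofReal (Real.pi ^ (1 - t) / (1 - t)) := by
    rw [← p1, ← lintegral_indicator measurableSet_Ioc, ← lintegral_indicator measurableSet_Ioc]
    rw [← lintegral_neg_eq_self]
    apply lintegral_mono_ae
    have hae : ∀ᵐ h : ℝ ∂volume, h ≠ 0 ∧ h ≠ Real.pi := by
      have a1 : ({0} : Set ℝ)ᶜ ∈ ae (volume : Measure ℝ) := compl_mem_ae_iff.2 Real.volume_singleton
      have a2 : ({Real.pi} : Set ℝ)ᶜ ∈ ae (volume : Measure ℝ) := compl_mem_ae_iff.2 Real.volume_singleton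
      filter_upwards [a1, a2] with h hh hh2
      exact ⟨hh, hh2⟩
    filter_upwards [hae] with x hx
    by_cases hm : -x ∈ Ioc (-Real.pi) 0
    · have hm2 : x ∈ Ioc 0 Real.pi := ⟨lt_of_le_of_ne (by linarith [hm.2]) (Ne.symm hx.1), by linarith [hm.1]⟩
      rw [indicator_of_mem hm, indicator_of_mem hm2, abs_neg]
    · rw [indicator_of_notMem hm]
      exact zero_le
  have hsplit : Ioc (-Real.pi) Real.pi = Ioc (-Real.pi) 0 ∪ Ioc 0 Real.pi :=
    (Ioc_union_Ioc_eq_Ioc (by linarith) hpi.le).symm
  rw [hsplit]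
  refine (lintegral_union_le _ _ _).trans ((add_le_add p2 p1.le).trans (le_of_eq ?_))
  have h2 : 0 < 1 - t := by linarith
  rw [← ENNReal.ofReal_add (by positivity) (by positivity)]
  congr 1
  ring

/-- the constant -/
noncomputable def Kb (t : ℝ) : ℝ := 2 * (Real.pi ^ (1 - t) / (1 - t))

/-- **the seminorm of functions of bounded variation** -/
theorem gagl_bv {t : ℝ} (h0 : 0 < t) (h1 : t < 1) {W w : ℝ → ℝ} (hW : Monotone W) {V : ℝ} (hV : 0 ≤ V)
    (hp : ∀ x, W (x + 2 * Real.pi) = W x + V) (hw : ∀ x y, |w x - w y| ≤ |W x - W y|) :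
    gagl t w ≤ ENNReal.ofReal (Kb t * V) := by
  unfold gagl
  calc ∫⁻ h in Ioc (-Real.pi) Real.pi, ENNReal.ofReal (|h| ^ (-(1 + t))) *
    ∫⁻ x in Ioc 0 (2 * Real.pi), ENNReal.ofReal |w (x + h) - w x|
      ≤ ∫⁻ h in Ioc (-Real.pi) Real.pi, ENNReal.ofReal V * ENNReal.ofReal (|h| ^ (-t)) := by
        have hae : ∀ᵐ h : ℝ ∂volume, h ≠ 0 := by
          have : ({0} : Set ℝ)ᶜ ∈ ae (volume : Measure ℝ) := compl_mem_ae_iff.2 Real.volume_singleton
          filter_upwards [this] with h hh
          exact hh
        apply lintegral_mono_ae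
        filter_upwards [ae_restrict_of_ae hae] with h hh
        have hb : 0 < |h| := abs_pos.2 hh
        have a1 : ∫⁻ x in Ioc 0 (2 * Real.pi), ENNReal.ofReal |w (x + h) - w x| ≤ ENNReal.ofReal (V * |h|) := by
          rw [← shift_abs hW hp h]
          apply lintegral_mono
          intro x
          exact ENNReal.ofReal_le_ofReal (hw _ _)
        calc ENNReal.ofReal (|h| ^ (-(1 + t))) * ∫⁻ x in Ioc 0 (2 * Real.pi), ENNReal.ofReal |w (x + h) - w x|
            ≤ ENNReal.ofReal (|h| ^ (-(1 + t))) * ENNReal.ofReal (V * |h|) := by gcongr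
          _ = _ := by
            rw [← ENNReal.ofReal_mul (by positivity), ← ENNReal.ofReal_mul hV]
            congr 1
            have : |h| ^ (-t) = |h| ^ (-(1 + t)) * |h| := by
              nth_rewrite 3 [← Real.rpow_one |h|]
              rw [← Real.rpow_add hb]
              congr 1
              ring
            rw [this]
            ring
    _ = ENNReal.ofReal V * ∫⁻ h in Ioc (-Real.pi) Real.pi, ENNReal.ofReal (|h| ^ (-t)) :=
        lintegral_const_mul' _ _ ENNReal.ofReal_ne_top
    _ ≤ ENNReal.ofReal V * ENNReal.ofReal (2 * (Real.pi ^ (1 - t) / (1 - t))) := by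
        gcongr
        exact abs_int h0 h1
    _ = _ := by
        rw [← ENNReal.ofReal_mul hV, mul_comm]
        rfl

/-- **near functions** (McShane's construction) -/
theorem exists_near {f N : ℝ → ℝ} {V δ : ℝ} (hf : Function.Periodic f (2 * Real.pi))
    (hN : ∀ x, N (x + 2 * Real.pi) = N x + V) (h : ∀ x y, f x - f y ≤ 2 * δ + |N x - N y|) :
    ∃ w : ℝ → ℝ, Function.Periodic w (2 * Real.pi) ∧ (∀ x, |f x - w x| ≤ δ) ∧ ∀ x y, |w x - w y| ≤ |N x - N y| := by
  set w : ℝ → ℝ := fun x => ⨆ y, (f y - δ - |N x - N y|) with hw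
  have hbd : ∀ x, BddAbove (range fun y => f y - δ - |N x - N y|) := by
    intro x
    refine ⟨f x + δ, ?_⟩
    rintro _ ⟨y, rfl⟩
    have := h y x
    simp only
    rw [abs_sub_comm] at this
    linarith
  have hle : ∀ x y, w x ≤ w y + |N x - N y| := by
    intro x y
    apply ciSup_le
    intro z
    have h1 : f z - δ - |N y - N z| ≤ w y := le_ciSup (hbd y) z
    have h2 : |N y - N z| ≤ |N x - N y| + |N x - N z| := by
      rw [abs_sub_comm (N x) (N y)]
      exact abs_sub_le _ _ _
    linarith
  refine ⟨w, ?_, ?_, ?_⟩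
  · intro x
    simp only [hw]
    apply le_antisymm
    · apply ciSup_le
      intro z
      have h1 := le_ciSup (hbd x) (z - 2 * Real.pi)
      have e1 : f (z - 2 * Real.pi) = f z := hf.sub_eq z
      have e2 := hN (z - 2 * Real.pi)
      rw [sub_add_cancel] at e2
      have e3 : N (x + 2 * Real.pi) - N z = N x - N (z - 2 * Real.pi) := by rw [hN x, e2]; ring
      rw [e3, ← e1]
      exact h1
    · apply ciSup_le
      intro z
      have h1 := le_ciSup (hbd (x + 2 * Real.pi)) (z + 2 * Real.pi)
      have e3 : N (x + 2 * Real.pi) - N (z + 2 * Real.pi) = N x - N z := by rw [hN x, hN z]; ring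
      have h2 : f z - δ - |N x - N z| = f (z + 2 * Real.pi) - δ - |N (x + 2 * Real.pi) - N (z + 2 * Real.pi)| := by
        rw [e3, hf z]
      rw [h2]
      exact h1
  · intro x
    rw [abs_le]
    constructor
    · have : w x ≤ f x + δ := by
        apply ciSup_le
        intro y
        have := h y x
        rw [abs_sub_comm] at this
        linarith
      linarith
    · have := le_ciSup (hbd x) x
      simp only [sub_self, abs_zero, sub_zero] at this
      have h2 : f x - δ ≤ w x := this
      linarith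
  · intro x y
    rw [abs_sub_le_iff]
    constructor
    · linarith [hle x y]
    · have := hle y x
      rw [abs_sub_comm] at this
      linarith

theorem meas_near {w N : ℝ → ℝ} (hN : Monotone N) (h : ∀ x y, |w x - w y| ≤ |N x - N y|) : Measurable w := by
  have h1 : Monotone fun x => w x + N x := by
    intro x y hxy
    have h2 := hN hxy
    have h3 := h x y
    rw [abs_sub_comm (N x), abs_of_nonneg (sub_nonneg.2 h2)] at h3
    have := (abs_le.1 h3).2
    simp only
    linarith
  have h4 : w = fun x => (w x + N x) - N x := by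
    funext x
    ring
  rw [h4]
  exact h1.measurable.sub hN.measurable

end Pool.Agent.Helper63x.TC
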