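import Mathlib
import Pool.Agent.Helper63x.TC.Geo

/-! Classes of functions that are near to functions of bounded variation. -/

set_option autoImplicit false
open Complex Metric Set Filter Topology MeasureTheory

namespace Pool.Agent.Helper63x.TC

/-- a control: `w` is controlled by a monotone function with increment `V` over the period -/
def Ctl (w : ℝ → ℝ) (V : ℝ) : Prop :=
  ∃ W : ℝ → ℝ, Monotone W ∧ (∀ x, W (x + 2 * Real.pi) = W x + V) ∧ ∀ x y, |w x - w y| ≤ |W x - W y|

theorem Ctl.nonneg {w : ℝ → ℝ} {V : ℝ} (h : Ctl w V) : 0 ≤ V := by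
  obtain ⟨W, hW, hp, -⟩ := h
  have h1 := hW (show (0:ℝ) ≤ 0 + 2 * Real.pi by linarith [Real.pi_pos])
  rw [hp] at h1
  linarith

theorem Ctl.meas {w : ℝ → ℝ} {V : ℝ} (h : Ctl w V) : Measurable w := by
  obtain ⟨W, hW, hp, h2⟩ := h
  exact meas_near hW h2

theorem Ctl.gagl {w : ℝ → ℝ} {V t : ℝ} (h : Ctl w V) (h0 : 0 < t) (h1 : t < 1) : gagl t w ≤ ENNReal.ofReal (Kb t * V) := by
  have hV := h.nonneg
  obtain ⟨W, hW, hp, h2⟩ := h
  exact gagl_bv h0 h1 hW hV hp h2

/-- **Kaplan's condition** -/
theorem kaplan_near {f : ℝ → ℝ} (hf : Function.Periodic f (2 * Real.pi))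
    (h : ∀ x y, x ≤ y → x + f x ≤ y + f y + Real.pi) :
    ∃ w : ℝ → ℝ, Function.Periodic w (2 * Real.pi) ∧ (∀ x, |f x - w x| ≤ Real.pi / 2) ∧ Ctl w (4 * Real.pi) := by
  set T : ℝ → ℝ := fun x => x + f x with hT
  set N : ℝ → ℝ := fun x => sSup (T '' Iic x) with hN
  have hbd : ∀ x, BddAbove (T '' Iic x) := by
    intro x
    refine ⟨T x + Real.pi, ?_⟩
    rintro _ ⟨s, hs, rfl⟩
    exact h s x hs
  have hne : ∀ x, (T '' Iic x).Nonempty := fun x => ⟨T x, x, mem_Iic.2 le_rfl, rfl⟩
  have hTp : ∀ x, T (x + 2 * Real.pi) = T x + 2 * Real.pi := by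
    intro x
    simp only [hT]
    rw [hf x]
    ring
  have hle : ∀ x s, s ≤ x → T s ≤ N x := fun x s hs => le_csSup (hbd x) ⟨s, hs, rfl⟩
  have hge : ∀ x c, (∀ s, s ≤ x → T s ≤ c) → N x ≤ c := by
    intro x c hc
    apply csSup_le (hne x)
    rintro _ ⟨s, hs, rfl⟩
    exact hc s hs
  have hmono : Monotone N := fun x y hxy => hge x _ fun s hs => hle y s (hs.trans hxy)
  have hNp : ∀ x, N (x + 2 * Real.pi) = N x + 2 * Real.pi := by
    intro x
    apply le_antisymm
    · apply hge
      intro s hs
      have h1 := hTp (s - 2 * Real.pi)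
      rw [sub_add_cancel] at h1
      rw [h1]
      linarith [hle x (s - 2 * Real.pi) (by linarith)]
    · have : N x ≤ N (x + 2 * Real.pi) - 2 * Real.pi := by
        apply hge
        intro s hs
        have h1 := hle (x + 2 * Real.pi) (s + 2 * Real.pi) (by linarith)
        rw [hTp] at h1
        linarith
      linarith
  have h1 : ∀ x, T x ≤ N x := fun x => hle x x le_rfl
  have h2 : ∀ x, N x ≤ T x + Real.pi := fun x => hge x _ fun s hs => h s x hs
  refine ⟨fun x => N x - Real.pi / 2 - x, ?_, ?_, fun x => N x + x, ?_, ?_, ?_⟩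
  · intro x
    simp only
    rw [hNp]
    ring
  · intro x
    have h3 := h1 x
    have h4 := h2 x
    simp only [hT] at h3 h4
    rw [abs_le]
    constructor <;> linarith
  · intro x y hxy
    have := hmono hxy
    simp only
    linarith
  · intro x
    simp only
    rw [hNp]
    ring
  · intro x y
    simp only
    rcases le_total x y with hxy | hxy
    · have h3 := hmono hxy
      rw [abs_le, abs_sub_comm (N x + x), abs_of_nonneg (by linarith)]
      constructor <;> linarith
    · have h3 := hmono hxy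
      rw [abs_le, abs_of_nonneg (a := N x + x - (N y + y)) (by linarith)]
      constructor <;> linarith

/-- on an arc the turning is at most `π` -/
theorem osc_arc {T : ℝ → ℝ} (hc : Continuous T) {c p q : ℝ} (h : ∀ x ∈ Icc p q, 0 ≤ Real.cos (T x - c)) :
    ∀ x ∈ Icc p q, ∀ y ∈ Icc p q, |T x - T y| ≤ Real.pi := by
  have hpi := Real.pi_pos
  have key : ∀ x ∈ Icc p q, ∀ y ∈ Icc p q, T y - T x ≤ Real.pi := by
    intro x hx y hy
    by_contra hcon
    rw [not_le] at hcon
    set k : ℤ := round ((T x - c) / (2 * Real.pi)) with hk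
    have hk1 : |(T x - c) - 2 * Real.pi * k| ≤ Real.pi := by
      have h1 := abs_sub_round ((T x - c) / (2 * Real.pi))
      have h2 : (T x - c) - 2 * Real.pi * k = 2 * Real.pi * ((T x - c) / (2 * Real.pi) - k) := by field_simp
      rw [h2, abs_mul, abs_of_pos (by positivity)]
      calc 2 * Real.pi * |(T x - c) / (2 * Real.pi) - k| ≤ 2 * Real.pi * (1 / 2) := by gcongr
        _ = Real.pi := by ring
    have hcos : ∀ s : ℝ, Real.cos (s - 2 * Real.pi * k) = Real.cos s := by
      intro s
      rw [show s - 2 * Real.pi * k = s - k * (2 * Real.pi) by ring]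
      exact Real.cos_sub_int_mul_two_pi s k
    have hk2 : (T x - c) - 2 * Real.pi * k ≤ Real.pi / 2 := by
      by_contra h3
      rw [not_le] at h3
      have h4 : Real.cos ((T x - c) - 2 * Real.pi * k) < 0 :=
        Real.cos_neg_of_pi_div_two_lt_of_lt h3 (by linarith [(abs_le.1 hk1).2])
      rw [hcos] at h4
      exact absurd (h x hx) (not_le.2 h4)
    have hk3 : -(Real.pi / 2) ≤ (T x - c) - 2 * Real.pi * k := by
      by_contra h3
      rw [not_le] at h3
      have h4 : Real.cos (-((T x - c) - 2 * Real.pi * k)) < 0 :=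
        Real.cos_neg_of_pi_div_two_lt_of_lt (by linarith) (by linarith [(abs_le.1 hk1).1])
      rw [Real.cos_neg, hcos] at h4
      exact absurd (h x hx) (not_le.2 h4)
    set z : ℝ := min (T y - c - 2 * Real.pi * k) Real.pi with hz
    have hz1 : Real.pi / 2 < z := lt_min (by linarith) (by linarith)
    have hz2 : z ≤ Real.pi := min_le_right _ _
    have hz3 : z ≤ T y - c - 2 * Real.pi * k := min_le_left _ _
    have h5 : z + 2 * Real.pi * k + c ∈ uIcc (T x) (T y) := by
      rw [uIcc_of_le (by linarith)]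
      exact ⟨by linarith, by linarith⟩
    obtain ⟨s, hs, hs2⟩ := intermediate_value_uIcc (hc.continuousOn (s := uIcc x y)) h5
    have hs3 : s ∈ Icc p q := by
      have := Set.uIcc_subset_Icc hx hy
      exact this hs
    have h6 := h s hs3
    rw [hs2, show z + 2 * Real.pi * k + c - c = z + 2 * Real.pi * k by ring, ← hcos, add_sub_cancel_right] at h6
    have h7 : Real.cos z < 0 := Real.cos_neg_of_pi_div_two_lt_of_lt hz1 (by linarith)
    exact absurd h6 (not_le.2 h7)
  intro x hx y hy
  rw [abs_sub_le_iff]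
  exact ⟨key y hy x hx, key x hx y hy⟩

/-- **arcs** -/
theorem arcs_near {f : ℝ → ℝ} (hf : Function.Periodic f (2 * Real.pi)) {n : ℕ} {θ : ℤ → ℝ}
    (hm : Monotone θ) (hp : ∀ i, θ (i + n) = θ i + 2 * Real.pi)
    (ho : ∀ i, ∀ x ∈ Icc (θ i) (θ (i + 1)), ∀ y ∈ Icc (θ i) (θ (i + 1)), |(x + f x) - (y + f y)| ≤ Real.pi) :
    ∃ w : ℝ → ℝ, Function.Periodic w (2 * Real.pi) ∧ (∀ x, |f x - w x| ≤ Real.pi / 2) ∧
      Ctl w (Real.pi * n + 2 * Real.pi) := by
  have hpi := Real.pi_pos
  have hmul : ∀ k : ℕ, ∀ i, θ (i + k * n) = θ i + 2 * Real.pi * k := by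
    intro k
    induction k with
    | zero => intro i; simp
    | succ k ih =>
      intro i
      have : i + ((k + 1 : ℕ) : ℤ) * n = (i + k * n) + n := by push_cast; ring
      rw [this, hp, ih]
      push_cast
      ring
  have hex : ∀ x : ℝ, ∃ i : ℤ, θ i ≤ x ∧ ∀ j, θ j ≤ x → j ≤ i := by
    intro x
    obtain ⟨k, hk⟩ := exists_nat_gt (|x - θ 0| / (2 * Real.pi))
    rw [div_lt_iff₀ (by positivity)] at hk
    have h1 := hmul k 0
    have h2 := hmul k (-(k * n))
    rw [zero_add] at h1
    rw [neg_add_cancel] at h2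
    have h3 := abs_lt.1 hk
    obtain ⟨ub, h4, h5⟩ := Int.exists_greatest_of_bdd (P := fun i : ℤ => θ i ≤ x) ⟨k * n, fun z hz => by
      by_contra hcon
      rw [not_le] at hcon
      have := hm hcon.le
      have hz' : θ z ≤ x := hz
      linarith [h3.2]⟩ ⟨-(k * n), by
        show θ (-(k * n)) ≤ x
        linarith [h3.1]⟩
    exact ⟨ub, h4, h5⟩
  choose ix h1 h2 using hex
  have h3 : ∀ x, x < θ (ix x + 1) := by
    intro x
    by_contra hcon
    rw [not_lt] at hcon
    have := h2 x _ hcon
    omega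
  have hmem : ∀ x, x ∈ Icc (θ (ix x)) (θ (ix x + 1)) := fun x => ⟨h1 x, (h3 x).le⟩
  have hmono : Monotone ix := fun x y hxy => h2 y _ ((h1 x).trans hxy)
  have hper : ∀ x, ix (x + 2 * Real.pi) = ix x + n := by
    intro x
    apply le_antisymm
    · have h4 : ix (x + 2 * Real.pi) - n ≤ ix x := by
        apply h2
        have h5 := hp (ix (x + 2 * Real.pi) - n)
        rw [sub_add_cancel] at h5
        linarith [h1 (x + 2 * Real.pi)]
      linarith
    · apply h2
      rw [hp]
      linarith [h1 x]
  have chain : ∀ k : ℕ, ∀ i : ℤ, ∀ x ∈ Icc (θ i) (θ (i + 1)), ∀ y ∈ Icc (θ (i + k)) (θ (i + k + 1)),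
      |(x + f x) - (y + f y)| ≤ Real.pi * (k + 1) := by
    intro k
    induction k with
    | zero =>
      intro i x hx y hy
      rw [Nat.cast_zero, add_zero] at hy
      have := ho i x hx y hy
      simpa using this
    | succ k ih =>
      intro i x hx y hy
      have e1 : i + ((k + 1 : ℕ) : ℤ) = i + k + 1 := by push_cast; ring
      rw [e1] at hy
      have h4 := ih i x hx (θ (i + k + 1)) ⟨hm (by omega), le_rfl⟩
      have h5 := ho (i + k + 1) (θ (i + k + 1)) ⟨le_rfl, hm (by omega)⟩ y hy
      calc |(x + f x) - (y + f y)| ≤ |(x + f x) - (θ (i + k + 1) + f (θ (i + k + 1)))| +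
            |(θ (i + k + 1) + f (θ (i + k + 1))) - (y + f y)| := abs_sub_le _ _ _
        _ ≤ Real.pi * (k + 1) + Real.pi := add_le_add h4 h5
        _ = _ := by push_cast; ring
  have osc2 : ∀ x y, x ≤ y → |(x + f x) - (y + f y)| ≤ Real.pi * ((ix y : ℝ) - ix x + 1) := by
    intro x y hxy
    have h4 := hmono hxy
    obtain ⟨k, hk⟩ := Int.le.dest h4
    have h5 := chain k (ix x) x (hmem x) y (by rw [hk]; exact hmem y)
    have h6 : (ix y : ℝ) = ix x + k := by rw [← hk]; push_cast; ring
    rw [h6]
    refine h5.trans (le_of_eq ?_)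
    ring
  set N : ℝ → ℝ := fun x => Real.pi * ix x + x with hN
  have hNm : Monotone N := by
    intro x y hxy
    have h4 : (ix x : ℝ) ≤ ix y := by exact_mod_cast hmono hxy
    have := mul_le_mul_of_nonneg_left h4 hpi.le
    simp only [hN]
    linarith
  have hNp : ∀ x, N (x + 2 * Real.pi) = N x + (Real.pi * n + 2 * Real.pi) := by
    intro x
    simp only [hN]
    rw [hper]
    push_cast
    ring
  have hmain : ∀ x y, f x - f y ≤ 2 * (Real.pi / 2) + |N x - N y| := by
    intro x y
    rcases le_total x y with hxy | hxy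
    · have h4 := osc2 x y hxy
      have h5 := hNm hxy
      rw [abs_sub_comm (N x), abs_of_nonneg (by linarith)]
      simp only [hN]
      have h6 := (abs_le.1 h4).2
      nlinarith [h6]
    · have h4 := osc2 y x hxy
      have h5 := hNm hxy
      rw [abs_of_nonneg (by linarith)]
      simp only [hN]
      have h6 := (abs_le.1 h4).1
      nlinarith [h6]
  obtain ⟨w, hw1, hw2, hw3⟩ := exists_near hf hNp hmain
  exact ⟨w, hw1, hw2, N, hNm, hNp, hw3⟩

/-- **bounded variation** -/
theorem bv_ctl {w : ℝ → ℝ} (hw : Function.Periodic w (2 * Real.pi)) {V : ℝ}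
    (hv : eVariationOn w (Icc 0 (2 * Real.pi)) ≤ ENNReal.ofReal V) : ∃ V', V' ≤ max V 0 ∧ Ctl w V' := by
  have hpi := Real.pi_pos
  have hsh : ∀ a b : ℝ, eVariationOn w (Icc (a + 2 * Real.pi) (b + 2 * Real.pi)) = eVariationOn w (Icc a b) := by
    intro a b
    have h1 := eVariationOn.comp_eq_of_monotoneOn w (t := Icc a b) (fun x : ℝ => x + 2 * Real.pi)
      (fun x _ y _ hxy => by simp only; linarith)
    rw [Set.image_add_const_Icc] at h1
    rw [← h1]
    congr 1
    funext x
    exact hw x
  have hfin : ∀ k : ℕ, eVariationOn w (Icc (-(2 * Real.pi * k)) (2 * Real.pi * k)) ≠ ⊤ := by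
    intro k
    induction k with
    | zero =>
      rw [Nat.cast_zero, mul_zero, neg_zero, Icc_self, eVariationOn.subsingleton w subsingleton_singleton]
      exact ENNReal.zero_ne_top
    | succ k ih =>
      have hk : (0:ℝ) ≤ 2 * Real.pi * k := by positivity
      have e1 : ∀ m : ℕ, eVariationOn w (Icc (2 * Real.pi * m) (2 * Real.pi * (m + 1))) ≤ ENNReal.ofReal V := by
        intro m
        induction m with
        | zero => simpa using hv
        | succ m ihm =>
          have := hsh (2 * Real.pi * m) (2 * Real.pi * (m + 1))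
          have e2 : 2 * Real.pi * ((m + 1 : ℕ) : ℝ) = 2 * Real.pi * m + 2 * Real.pi := by push_cast; ring
          have e3 : 2 * Real.pi * (((m + 1 : ℕ) : ℝ) + 1) = 2 * Real.pi * (m + 1) + 2 * Real.pi := by push_cast; ring
          rw [e2, e3] at *
          rw [show 2 * Real.pi * (m + 1) + 2 * Real.pi = 2 * Real.pi * (m + 1) + 2 * Real.pi from rfl, this]
          exact ihm
      have e1' : ∀ m : ℕ, eVariationOn w (Icc (-(2 * Real.pi * (m + 1))) (-(2 * Real.pi * m))) ≤ ENNReal.ofReal V := by
        intro m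
        induction m with
        | zero =>
          have h4 := hsh (-(2 * Real.pi)) 0
          rw [neg_add_cancel, zero_add] at h4
          simpa [← h4] using hv
        | succ m ihm =>
          have h4 := hsh (-(2 * Real.pi * (((m + 1 : ℕ) : ℝ) + 1))) (-(2 * Real.pi * ((m + 1 : ℕ) : ℝ)))
          rw [← h4]
          have e2 : -(2 * Real.pi * (((m + 1 : ℕ) : ℝ) + 1)) + 2 * Real.pi = -(2 * Real.pi * (m + 1)) := by push_cast; ring
          have e3 : -(2 * Real.pi * ((m + 1 : ℕ) : ℝ)) + 2 * Real.pi = -(2 * Real.pi * m) := by push_cast; ring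
          rw [e2, e3]
          exact ihm
      have c1 : eVariationOn w (Icc (-(2 * Real.pi * k)) (2 * Real.pi * (k + 1))) ≠ ⊤ := by
        have h5 := eVariationOn.Icc_add_Icc w (s := univ) (a := -(2 * Real.pi * k)) (b := 2 * Real.pi * k)
          (c := 2 * Real.pi * (k + 1)) (by linarith) (by linarith) (mem_univ _)
        rw [univ_inter, univ_inter, univ_inter] at h5
        rw [← h5]
        exact ENNReal.add_ne_top.2 ⟨ih, ((e1 k).trans_lt ENNReal.ofReal_lt_top).ne⟩
      have h6 := eVariationOn.Icc_add_Icc w (s := univ) (a := -(2 * Real.pi * (k + 1))) (b := -(2 * Real.pi * k))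
          (c := 2 * Real.pi * (k + 1)) (by linarith) (by linarith) (mem_univ _)
      rw [univ_inter, univ_inter, univ_inter] at h6
      push_cast
      rw [← h6]
      exact ENNReal.add_ne_top.2 ⟨((e1' k).trans_lt ENNReal.ofReal_lt_top).ne, c1⟩
  have hloc : LocallyBoundedVariationOn w univ := by
    intro a b _ _
    rw [univ_inter]
    obtain ⟨k, hk⟩ := exists_nat_gt (max |a| |b| / (2 * Real.pi))
    rw [div_lt_iff₀ (by positivity)] at hk
    have ha := abs_lt.1 ((le_max_left |a| |b|).trans_lt hk)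
    have hb := abs_lt.1 ((le_max_right |a| |b|).trans_lt hk)
    refine ne_top_of_le_ne_top (hfin k) (eVariationOn.mono w (Icc_subset_Icc ?_ ?_))
    · linarith [ha.1]
    · linarith [hb.2]
  set W : ℝ → ℝ := variationOnFromTo w univ 0 with hW
  have hmono : Monotone W := by
    rw [← monotoneOn_univ]
    exact variationOnFromTo.monotoneOn hloc (mem_univ _)
  have hadd : ∀ x y z, variationOnFromTo w univ x y + variationOnFromTo w univ y z = variationOnFromTo w univ x z :=
    fun x y z => variationOnFromTo.add hloc (mem_univ _) (mem_univ _) (mem_univ _)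
  have hshift : ∀ x y, variationOnFromTo w univ (x + 2 * Real.pi) (y + 2 * Real.pi) = variationOnFromTo w univ x y := by
    intro x y
    unfold variationOnFromTo
    simp only [univ_inter, hsh, add_le_add_iff_right]
  refine ⟨variationOnFromTo w univ 0 (2 * Real.pi), ?_, W, hmono, ?_, ?_⟩
  · rw [variationOnFromTo.eq_of_le w univ (by positivity), univ_inter]
    have h7 := ENNReal.toReal_mono ENNReal.ofReal_ne_top hv
    rw [ENNReal.toReal_ofReal'] at h7
    exact h7
  · intro x
    simp only [hW]
    have h8 := hadd 0 (2 * Real.pi) (x + 2 * Real.pi)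
    have h9 := hshift 0 x
    rw [zero_add] at h9
    rw [h9] at h8
    linarith
  · intro x y
    have hle : ∀ p q, p ≤ q → |w p - w q| ≤ W q - W p := by
      intro p q hpq
      have h8 := hadd 0 p q
      have h9 : variationOnFromTo w univ p q = W q - W p := by simp only [hW]; linarith
      rw [← h9, variationOnFromTo.eq_of_le w univ hpq, univ_inter, ← Real.dist_eq]
      have h10 := eVariationOn.edist_le w (s := Icc p q) (x := p) (y := q) ⟨le_rfl, hpq⟩ ⟨hpq, le_rfl⟩
      rw [edist_dist] at h10
      have h12 : eVariationOn w (Icc p q) ≠ ⊤ := by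
        have h13 := hloc p q (mem_univ _) (mem_univ _)
        rw [univ_inter] at h13
        exact h13
      have h11 := ENNReal.toReal_mono h12 h10
      rwa [ENNReal.toReal_ofReal dist_nonneg] at h11
    rcases le_total x y with hxy | hxy
    · exact (hle x y hxy).trans ((le_abs_self _).trans (le_of_eq (abs_sub_comm _ _)))
    · rw [abs_sub_comm]
      exact (hle y x hxy).trans (le_abs_self _)

end Pool.Agent.Helper63x.TC
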