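import Mathlib
import Pool.Agent.Z55M.Deriv
import Pool.Agent.Helper63x.TC.Osc

/-! The key estimate: means of `|exp (τ H)|` when `Im H` is near `u` on the unit circle. -/

set_option autoImplicit false
open Complex Metric Set Filter Topology MeasureTheory

namespace Pool.Agent.Helper63x.TC

open Pool.Agent.Z55M (av_deriv cm_mem' cm_contf cint sphere_sub av_re av_mulr)

theorem norm_av_le (F : ℂ → ℂ) (r : ℝ) : ‖Real.circleAverage F 0 r‖ ≤ Real.circleAverage (fun v => ‖F v‖) 0 r := by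
  have hpi := Real.pi_pos
  unfold Real.circleAverage
  rw [norm_smul, Real.norm_of_nonneg (by positivity), smul_eq_mul]
  exact mul_le_mul_of_nonneg_left (intervalIntegral.norm_integral_le_integral_norm (by positivity)) (by positivity)

theorem enorm_av_le (F : ℂ → ℂ) (r : ℝ) : ‖Real.circleAverage F 0 r‖ₑ ≤
    ENNReal.ofReal ((2 * Real.pi)⁻¹) * ∫⁻ x in Ioc 0 (2 * Real.pi), ‖F (circleMap 0 r x)‖ₑ := by
  have hpi := Real.pi_pos
  unfold Real.circleAverage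
  rw [enorm_smul, Real.enorm_eq_ofReal (by positivity), intervalIntegral.integral_of_le (by positivity)]
  gcongr
  exact enorm_integral_le_lintegral_enorm _

section

variable {H : ℂ → ℂ} {u : ℂ → ℝ} {t κ M' : ℝ} {τ : ℂ}

/-- the data -/
structure Dat (H : ℂ → ℂ) (u : ℂ → ℝ) (t κ M' : ℝ) (τ : ℂ) : Prop where
  t0 : 0 < t
  t1 : t < 1
  k0 : 0 ≤ κ
  k1 : t * κ < 1
  hH : DiffContOnCl ℂ H (ball 0 1)
  gol : ∀ v ∈ ball (0 : ℂ) 1, ‖H v‖ ≤ -Real.log (1 - ‖v‖ ^ 2)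
  mu : Measurable u
  near : ∀ ζ : ℂ, ‖ζ‖ = 1 → |(H ζ).im - u ζ| ≤ κ * (Real.pi / 2)
  bdd : ∀ ζ : ℂ, ‖ζ‖ = 1 → |u ζ| ≤ M'
  tau : ‖τ‖ ≤ t

/-- first factor -/
noncomputable def ff (H : ℂ → ℂ) (u : ℂ → ℝ) (τ : ℂ) (v : ℂ) : ℂ :=
  Complex.exp (τ / 2 * sa u v + (τ.re : ℂ) * (H v - sa u v))

/-- second factor -/
noncomputable def gg (u : ℂ → ℝ) (τ : ℂ) (v : ℂ) : ℂ := Complex.exp (τ / 2 * sa u v)

theorem Dat.hd (D : Dat H u t κ M' τ) : DifferentiableOn ℂ H (ball 0 1) := D.hH.1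

theorem Dat.da (D : Dat H u t κ M' τ) : DifferentiableOn ℂ (sa u) (ball 0 1) := sa_diff D.mu D.bdd

theorem Dat.df (D : Dat H u t κ M' τ) : DifferentiableOn ℂ (ff H u τ) (ball 0 1) := by
  unfold ff
  exact ((D.da.const_mul _).add ((D.hd.sub D.da).const_mul _)).cexp

theorem Dat.dg (D : Dat H u t κ M' τ) : DifferentiableOn ℂ (gg u τ) (ball 0 1) := by
  unfold gg
  exact (D.da.const_mul _).cexp

theorem Dat.deriv_g (D : Dat H u t κ M' τ) {v : ℂ} (hv : ‖v‖ < 1) :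
    deriv (gg u τ) v = τ / 2 * sd u v * gg u τ v := by
  have h1 := (sa_hasDeriv D.mu D.bdd hv).const_mul (τ / 2)
  have h2 := h1.cexp
  have h3 : HasDerivAt (gg u τ) (Complex.exp (τ / 2 * sa u v) * (τ / 2 * sd u v)) v := h2
  rw [h3.deriv]
  unfold gg
  ring

theorem Dat.im_b (D : Dat H u t κ M' τ) {v : ℂ} (hv : ‖v‖ < 1) : |(H v - sa u v).im| ≤ κ * (Real.pi / 2) :=
  im_bound D.mu D.hH D.near D.bdd hv

/-- the product of the two factors -/
theorem ff_gg (H : ℂ → ℂ) (u : ℂ → ℝ) (τ v : ℂ) : ff H u τ v * (starRingEnd ℂ) (gg u τ v) =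
    ((Real.exp ((τ * H v).re + τ.im * (H v - sa u v).im) : ℝ) : ℂ) *
      Complex.exp (((τ.re * (H v - sa u v).im : ℝ) : ℂ) * I) := by
  unfold ff gg
  rw [← Complex.exp_conj, ← Complex.exp_add, Complex.ofReal_exp, ← Complex.exp_add]
  congr 1
  apply Complex.ext
  · simp only [Complex.add_re, Complex.mul_re, Complex.conj_re, Complex.ofReal_re, Complex.ofReal_im, Complex.I_re,
      Complex.I_im, Complex.sub_re, Complex.sub_im, Complex.div_re, Complex.div_im, Complex.add_im, Complex.mul_im]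
    simp only [Complex.re_ofNat, Complex.im_ofNat, Complex.normSq_ofNat]
    ring
  · simp only [Complex.add_re, Complex.mul_re, Complex.conj_im, Complex.ofReal_re, Complex.ofReal_im, Complex.I_re,
      Complex.I_im, Complex.sub_re, Complex.sub_im, Complex.div_re, Complex.div_im, Complex.add_im, Complex.mul_im]
    simp only [Complex.re_ofNat, Complex.im_ofNat, Complex.normSq_ofNat]
    ring

theorem norm_ff_gg (H : ℂ → ℂ) (u : ℂ → ℝ) (τ v : ℂ) : ‖ff H u τ v‖ * ‖gg u τ v‖ =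
    Real.exp ((τ * H v).re + τ.im * (H v - sa u v).im) := by
  have h1 := congrArg norm (ff_gg H u τ v)
  rw [norm_mul, norm_mul, RCLike.norm_conj, Complex.norm_exp_ofReal_mul_I, mul_one, Complex.norm_real,
    Real.norm_of_nonneg (Real.exp_pos _).le] at h1
  exact h1

theorem re_ff_gg (H : ℂ → ℂ) (u : ℂ → ℝ) (τ v : ℂ) : (ff H u τ v * (starRingEnd ℂ) (gg u τ v)).re =
    (‖ff H u τ v‖ * ‖gg u τ v‖) * Real.cos (τ.re * (H v - sa u v).im) := by
  rw [ff_gg, norm_ff_gg, Complex.re_ofReal_mul, Complex.exp_ofReal_mul_I_re]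

/-- `exp (t κ π / 2)` -/
noncomputable def EE (t κ : ℝ) : ℝ := Real.exp (t * (κ * (Real.pi / 2)))

theorem EE_ge_one (h0 : 0 < t) (h1 : 0 ≤ κ) : 1 ≤ EE t κ := by
  unfold EE
  have := Real.pi_pos
  exact Real.one_le_exp (by positivity)

theorem Dat.im_tau (D : Dat H u t κ M' τ) {v : ℂ} (hv : ‖v‖ < 1) :
    |τ.im * (H v - sa u v).im| ≤ t * (κ * (Real.pi / 2)) := by
  rw [abs_mul]
  exact mul_le_mul ((Complex.abs_im_le_norm τ).trans D.tau) (D.im_b hv) (abs_nonneg _) D.t0.le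

theorem Dat.exp_le (D : Dat H u t κ M' τ) {v : ℂ} (hv : ‖v‖ < 1) :
    Real.exp ((τ * H v).re) ≤ (1 - ‖v‖ ^ 2) ^ (-t) := by
  have h0 : 0 < 1 - ‖v‖ ^ 2 := by nlinarith [norm_nonneg v]
  rw [Real.rpow_def_of_pos h0, Real.exp_le_exp]
  have h1 := D.gol v (mem_ball_zero_iff.2 hv)
  have h2 : (τ * H v).re ≤ ‖τ‖ * ‖H v‖ := by
    rw [← norm_mul]
    exact Complex.re_le_norm _
  have h3 : ‖τ‖ * ‖H v‖ ≤ t * ‖H v‖ := mul_le_mul_of_nonneg_right D.tau (norm_nonneg _)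
  have h4 : t * ‖H v‖ ≤ t * (-Real.log (1 - ‖v‖ ^ 2)) := mul_le_mul_of_nonneg_left h1 D.t0.le
  linarith

theorem Dat.prod_le (D : Dat H u t κ M' τ) {v : ℂ} (hv : ‖v‖ < 1) :
    ‖ff H u τ v‖ * ‖gg u τ v‖ ≤ EE t κ * (1 - ‖v‖ ^ 2) ^ (-t) := by
  rw [norm_ff_gg, Real.exp_add, mul_comm]
  apply mul_le_mul _ (D.exp_le hv) (Real.exp_pos _).le (by unfold EE; positivity)
  unfold EE
  rw [Real.exp_le_exp]
  exact (le_abs_self _).trans (D.im_tau hv)

theorem Dat.exp_le_prod (D : Dat H u t κ M' τ) {v : ℂ} (hv : ‖v‖ < 1) :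
    ‖Complex.exp (τ * H v)‖ ≤ EE t κ * (‖ff H u τ v‖ * ‖gg u τ v‖) := by
  rw [norm_ff_gg, Complex.norm_exp]
  unfold EE
  rw [← Real.exp_add, Real.exp_le_exp]
  have := (neg_abs_le _).trans (le_refl (τ.im * (H v - sa u v).im))
  linarith [D.im_tau hv]

/-- the cosine -/
noncomputable def cc (t κ : ℝ) : ℝ := Real.cos (t * (κ * (Real.pi / 2)))

theorem cc_pos (h0 : 0 < t) (h1 : 0 ≤ κ) (h2 : t * κ < 1) : 0 < cc t κ := by
  unfold cc
  have := Real.pi_pos
  apply Real.cos_pos_of_mem_Ioo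
  constructor
  · have : 0 ≤ t * (κ * (Real.pi / 2)) := by positivity
    linarith
  · nlinarith

theorem Dat.cos_ge (D : Dat H u t κ M' τ) {v : ℂ} (hv : ‖v‖ < 1) : cc t κ ≤ Real.cos (τ.re * (H v - sa u v).im) := by
  unfold cc
  rw [← Real.cos_abs (τ.re * (H v - sa u v).im)]
  have hpi := Real.pi_pos
  apply Real.cos_le_cos_of_nonneg_of_le_pi (abs_nonneg _)
  · nlinarith [D.k1, D.k0, D.t0]
  · rw [abs_mul]
    exact mul_le_mul ((Complex.abs_re_le_norm τ).trans D.tau) (D.im_b hv) (abs_nonneg _) D.t0.le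

/-- the mean -/
noncomputable def XX (H : ℂ → ℂ) (u : ℂ → ℝ) (τ : ℂ) (r : ℝ) : ℂ :=
  Real.circleAverage (fun v => ff H u τ v * (starRingEnd ℂ) (gg u τ v)) 0 r

theorem Dat.cont_fg (D : Dat H u t κ M' τ) : ContinuousOn (fun v => ff H u τ v * (starRingEnd ℂ) (gg u τ v)) (ball 0 1) :=
  D.df.continuousOn.mul (Complex.continuous_conj.comp_continuousOn D.dg.continuousOn)

/-- the mean of the power is bounded by the modulus of `X` -/
theorem Dat.mean_le (D : Dat H u t κ M' τ) {r : ℝ} (h0 : 0 < r) (h1 : r < 1) :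
    Real.circleAverage (fun v => ‖Complex.exp (τ * H v)‖) 0 r ≤ EE t κ / cc t κ * ‖XX H u τ r‖ := by
  have hra : |r| < 1 := by rwa [abs_of_pos h0]
  have hc := cc_pos D.t0 D.k0 D.k1
  have hE : 0 < EE t κ := by unfold EE; positivity
  have i1 : CircleIntegrable (fun v => ‖Complex.exp (τ * H v)‖) 0 r :=
    cint (Complex.continuous_exp.comp_continuousOn (continuousOn_const.mul D.hd.continuousOn)).norm hra
  have i2 : CircleIntegrable (fun v => (ff H u τ v * (starRingEnd ℂ) (gg u τ v)).re) 0 r :=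
    cint (Complex.continuous_re.comp_continuousOn D.cont_fg) hra
  have i3 : CircleIntegrable (fun v => ff H u τ v * (starRingEnd ℂ) (gg u τ v)) 0 r := cint D.cont_fg hra
  calc Real.circleAverage (fun v => ‖Complex.exp (τ * H v)‖) 0 r
      ≤ Real.circleAverage (fun v => EE t κ / cc t κ * (ff H u τ v * (starRingEnd ℂ) (gg u τ v)).re) 0 r := by
        apply Real.circleAverage_mono i1 (i2.const_fun_smul (a := EE t κ / cc t κ))
        intro v hv
        have hvb := mem_ball_zero_iff.1 (sphere_sub hra hv)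
        refine (D.exp_le_prod hvb).trans ?_
        rw [re_ff_gg, smul_eq_mul, div_mul_eq_mul_div, mul_div_assoc]
        apply mul_le_mul_of_nonneg_left _ hE.le
        rw [le_div_iff₀ hc]
        exact mul_le_mul_of_nonneg_left (D.cos_ge hvb) (by positivity)
    _ = EE t κ / cc t κ * (XX H u τ r).re := by
        rw [av_mulr, av_re i3]
        rfl
    _ ≤ _ := mul_le_mul_of_nonneg_left (Complex.re_le_norm _) (by positivity)

theorem Dat.xx_norm (D : Dat H u t κ M' τ) {r : ℝ} (h0 : 0 < r) (h1 : r < 1) :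
    ‖XX H u τ r‖ ≤ EE t κ * (1 - r ^ 2) ^ (-t) := by
  have hra : |r| < 1 := by rwa [abs_of_pos h0]
  unfold XX
  refine (norm_av_le _ _).trans ?_
  calc Real.circleAverage (fun v => ‖ff H u τ v * (starRingEnd ℂ) (gg u τ v)‖) 0 r
      ≤ Real.circleAverage (fun _ => EE t κ * (1 - r ^ 2) ^ (-t)) 0 r := by
        apply Real.circleAverage_mono (cint D.cont_fg.norm hra) (circleIntegrable_const _ _ _)
        intro v hv
        have hvb := mem_ball_zero_iff.1 (sphere_sub hra hv)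
        rw [norm_mul, RCLike.norm_conj]
        refine (D.prod_le hvb).trans ?_
        rw [mem_sphere_zero_iff_norm, abs_of_pos h0] at hv
        rw [hv]
    _ = _ := Real.circleAverage_const _ _ _

/-- the derivative -/
theorem Dat.xx_deriv (D : Dat H u t κ M' τ) {r : ℝ} (h0 : 0 < r) (h1 : r < 1) :
    HasDerivAt (XX H u τ) ((2 / r : ℝ) * Real.circleAverage (fun v => ff H u τ v * (starRingEnd ℂ) (v * deriv (gg u τ) v)) 0 r) r :=
  av_deriv D.df D.dg h0 h1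

theorem Dat.deriv_bound (D : Dat H u t κ M' τ) {r : ℝ} (h0 : 0 < r) (h1 : r < 1) :
    ‖deriv (XX H u τ) r‖ₑ ≤ ENNReal.ofReal (EE t κ * (2 * Real.pi)⁻¹) * (ENNReal.ofReal ((1 - r ^ 2) ^ (-t)) *
      ∫⁻ x in Ioc 0 (2 * Real.pi), ‖sd u (circleMap 0 r x)‖ₑ) := by
  have hpi := Real.pi_pos
  have hE : 0 < EE t κ := by unfold EE; positivity
  have hp : 0 ≤ (1 - r ^ 2) ^ (-t) := Real.rpow_nonneg (by nlinarith) _
  rw [(D.xx_deriv h0 h1).deriv, enorm_mul]
  have e1 : ‖((2 / r : ℝ) : ℂ)‖ₑ = ENNReal.ofReal (2 / r) := by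
    rw [← ofReal_norm, Complex.norm_real, Real.norm_of_nonneg (by positivity)]
  have e2 : ∀ x : ℝ, ‖ff H u τ (circleMap 0 r x) * (starRingEnd ℂ) (circleMap 0 r x * deriv (gg u τ) (circleMap 0 r x))‖ₑ ≤
      ENNReal.ofReal (r * (EE t κ / 2)) * (ENNReal.ofReal ((1 - r ^ 2) ^ (-t)) * ‖sd u (circleMap 0 r x)‖ₑ) := by
    intro x
    have hn : ‖circleMap 0 r x‖ = r := by rw [norm_circleMap_zero, abs_of_pos h0]
    have hvb : ‖circleMap 0 r x‖ < 1 := by rw [hn]; exact h1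
    have h2 := D.prod_le hvb
    rw [hn] at h2
    rw [← ofReal_norm, ← ofReal_norm, ← ENNReal.ofReal_mul hp, ← ENNReal.ofReal_mul (by positivity)]
    apply ENNReal.ofReal_le_ofReal
    rw [D.deriv_g hvb, norm_mul, RCLike.norm_conj, norm_mul, norm_mul, norm_mul, hn, norm_div, Complex.norm_ofNat]
    have h3 : ‖τ‖ ≤ 1 := D.tau.trans D.t1.le
    have h4 := norm_nonneg (sd u (circleMap 0 r x))
    calc ‖ff H u τ (circleMap 0 r x)‖ * (r * (‖τ‖ / 2 * ‖sd u (circleMap 0 r x)‖ * ‖gg u τ (circleMap 0 r x)‖))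
        = (‖ff H u τ (circleMap 0 r x)‖ * ‖gg u τ (circleMap 0 r x)‖) * (‖τ‖ * (r / 2 * ‖sd u (circleMap 0 r x)‖)) := by ring
      _ ≤ (EE t κ * (1 - r ^ 2) ^ (-t)) * (1 * (r / 2 * ‖sd u (circleMap 0 r x)‖)) := by
          apply mul_le_mul h2 _ (by positivity) (by positivity)
          exact mul_le_mul_of_nonneg_right h3 (by positivity)
      _ = _ := by ring
  rw [e1]
  calc ENNReal.ofReal (2 / r) * ‖Real.circleAverage (fun v => ff H u τ v * (starRingEnd ℂ) (v * deriv (gg u τ) v)) 0 r‖ₑ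
      ≤ ENNReal.ofReal (2 / r) * (ENNReal.ofReal ((2 * Real.pi)⁻¹) * ∫⁻ x in Ioc 0 (2 * Real.pi),
        ENNReal.ofReal (r * (EE t κ / 2)) * (ENNReal.ofReal ((1 - r ^ 2) ^ (-t)) * ‖sd u (circleMap 0 r x)‖ₑ)) := by
        gcongr
        refine (enorm_av_le _ _).trans ?_
        gcongr with x
        exact e2 x
    _ = ENNReal.ofReal (2 / r) * (ENNReal.ofReal ((2 * Real.pi)⁻¹) * (ENNReal.ofReal (r * (EE t κ / 2)) *
        (ENNReal.ofReal ((1 - r ^ 2) ^ (-t)) * ∫⁻ x in Ioc 0 (2 * Real.pi), ‖sd u (circleMap 0 r x)‖ₑ))) := by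
        rw [lintegral_const_mul' _ _ ENNReal.ofReal_ne_top, lintegral_const_mul' _ _ ENNReal.ofReal_ne_top]
    _ = _ := by
        rw [← mul_assoc, ← mul_assoc, ← ENNReal.ofReal_mul (by positivity), ← ENNReal.ofReal_mul (by positivity)]
        congr 2
        field_simp

theorem Dat.xx_diff (D : Dat H u t κ M' τ) {r : ℝ} (h0 : 0 < r) (h1 : r < 1) : DifferentiableAt ℝ (XX H u τ) r :=
  (D.xx_deriv h0 h1).differentiableAt

/-- the derivative is bounded on compact intervals -/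
theorem Dat.deriv_int (D : Dat H u t κ M' τ) {r : ℝ} (h0 : 1 / 2 ≤ r) (h1 : r < 1) {V : ENNReal} (hV : V ≠ ⊤)
    (hg : gag t u ≤ V) : IntervalIntegrable (deriv (XX H u τ)) volume (1 / 2) r ∧
      ∫⁻ ρ in Ioc (1 / 2) r, ‖deriv (XX H u τ) ρ‖ₑ ≤ ENNReal.ofReal (EE t κ * (2 * Real.pi)⁻¹) * (ENNReal.ofReal (Kt t) * V) := by
  have h2 : ∫⁻ ρ in Ioc (1 / 2) r, ‖deriv (XX H u τ) ρ‖ₑ ≤
      ENNReal.ofReal (EE t κ * (2 * Real.pi)⁻¹) * (ENNReal.ofReal (Kt t) * V) := by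
    calc ∫⁻ ρ in Ioc (1 / 2) r, ‖deriv (XX H u τ) ρ‖ₑ
        ≤ ∫⁻ ρ in Ioc (1 / 2) r, ENNReal.ofReal (EE t κ * (2 * Real.pi)⁻¹) * (ENNReal.ofReal ((1 - ρ ^ 2) ^ (-t)) *
          ∫⁻ x in Ioc 0 (2 * Real.pi), ‖sd u (circleMap 0 ρ x)‖ₑ) := by
          apply setLIntegral_mono' measurableSet_Ioc
          intro ρ hρ
          exact D.deriv_bound (by linarith [hρ.1]) (by linarith [hρ.2])
      _ ≤ ∫⁻ ρ in Ioo (1 / 2) 1, ENNReal.ofReal (EE t κ * (2 * Real.pi)⁻¹) * (ENNReal.ofReal ((1 - ρ ^ 2) ^ (-t)) *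
          ∫⁻ x in Ioc 0 (2 * Real.pi), ‖sd u (circleMap 0 ρ x)‖ₑ) := by
          apply lintegral_mono_set
          intro ρ hρ
          exact ⟨hρ.1, by linarith [hρ.2]⟩
      _ = ENNReal.ofReal (EE t κ * (2 * Real.pi)⁻¹) * ∫⁻ ρ in Ioo (1 / 2) 1, (ENNReal.ofReal ((1 - ρ ^ 2) ^ (-t)) *
          ∫⁻ x in Ioc 0 (2 * Real.pi), ‖sd u (circleMap 0 ρ x)‖ₑ) := lintegral_const_mul' _ _ ENNReal.ofReal_ne_top
      _ ≤ _ := by
          gcongr
          refine (weighted D.mu D.bdd D.t0 D.t1).trans ?_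
          gcongr
  refine ⟨?_, h2⟩
  rw [intervalIntegrable_iff_integrableOn_Ioc_of_le h0]
  refine ⟨(measurable_deriv _).aestronglyMeasurable, ?_⟩
  refine lt_of_le_of_lt h2 ?_
  exact ENNReal.mul_lt_top ENNReal.ofReal_lt_top (ENNReal.mul_lt_top ENNReal.ofReal_lt_top hV.lt_top)

/-- **the key estimate** -/
theorem Dat.key (D : Dat H u t κ M' τ) {V : ℝ} (hV : 0 ≤ V) (hg : gag t u ≤ ENNReal.ofReal V) {r : ℝ} (h0 : 0 < r)
    (h1 : r < 1) : Real.circleAverage (fun v => ‖Complex.exp (τ * H v)‖) 0 r ≤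
      EE t κ / cc t κ * (EE t κ * 2 + EE t κ * (2 * Real.pi)⁻¹ * (Kt t * V)) := by
  have hpi := Real.pi_pos
  have hE : 0 < EE t κ := by unfold EE; positivity
  have hc := cc_pos D.t0 D.k0 D.k1
  have hK : 0 ≤ Kt t := by
    unfold Kt
    have := D.t1
    have : 0 < 1 - t := by linarith
    positivity
  have hbd : ∀ x : ℝ, 0 < x → x ≤ 1 / 2 → ‖XX H u τ x‖ ≤ EE t κ * 2 := by
    intro x hx hx2
    refine (D.xx_norm hx (by linarith)).trans ?_
    apply mul_le_mul_of_nonneg_left _ hE.le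
    have h3 : 3 / 4 ≤ 1 - x ^ 2 := by nlinarith
    calc (1 - x ^ 2) ^ (-t) ≤ (3 / 4 : ℝ) ^ (-t) := by
          apply Real.rpow_le_rpow_of_nonpos (by norm_num) h3 (by linarith [D.t0])
      _ ≤ (3 / 4 : ℝ) ^ (-1 : ℝ) := by
          apply Real.rpow_le_rpow_of_exponent_ge (by norm_num) (by norm_num)
          linarith [D.t1]
      _ ≤ 2 := by
          rw [Real.rpow_neg_one]
          norm_num
  refine (D.mean_le h0 h1).trans ?_
  apply mul_le_mul_of_nonneg_left _ (by positivity)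
  rcases le_total r (1 / 2) with h | h
  · refine (hbd r h0 h).trans ?_
    have : 0 ≤ EE t κ * (2 * Real.pi)⁻¹ * (Kt t * V) := by positivity
    linarith
  · obtain ⟨hi, hl⟩ := D.deriv_int h h1 ENNReal.ofReal_ne_top hg
    have e1 : ∫ y in (1 / 2)..r, deriv (XX H u τ) y = XX H u τ r - XX H u τ (1 / 2) := by
      apply intervalIntegral.integral_deriv_eq_sub _ hi
      intro x hx
      rw [uIcc_of_le h] at hx
      exact D.xx_diff (by linarith [hx.1]) (by linarith [hx.2])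
    have e2 : ‖XX H u τ r - XX H u τ (1 / 2)‖ₑ ≤ ENNReal.ofReal (EE t κ * (2 * Real.pi)⁻¹ * (Kt t * V)) := by
      rw [← e1, intervalIntegral.integral_of_le h]
      refine (enorm_integral_le_lintegral_enorm _).trans (hl.trans (le_of_eq ?_))
      rw [← ENNReal.ofReal_mul hK, ← ENNReal.ofReal_mul (by positivity)]
    rw [← ofReal_norm] at e2
    have e3 : ‖XX H u τ r - XX H u τ (1 / 2)‖ ≤ EE t κ * (2 * Real.pi)⁻¹ * (Kt t * V) :=
      (ENNReal.ofReal_le_ofReal_iff (by positivity)).1 e2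
    calc ‖XX H u τ r‖ = ‖XX H u τ (1 / 2) + (XX H u τ r - XX H u τ (1 / 2))‖ := by rw [add_sub_cancel]
      _ ≤ ‖XX H u τ (1 / 2)‖ + ‖XX H u τ r - XX H u τ (1 / 2)‖ := norm_add_le _ _
      _ ≤ _ := add_le_add (hbd _ (by norm_num) le_rfl) e3

end

end Pool.Agent.Helper63x.TC
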