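import Mathlib
import Pool.Agent.Helper63x.TC.Key
import Pool.Agent.Helper63x.TC.Cls
import Pool.Agent.Z55M.Fin

/-! From the disc to the exterior of the disc. -/

set_option autoImplicit false
open Complex Metric Set Filter Topology MeasureTheory

namespace Pool.Agent.Helper63x.TC

open Pool.Agent.W677.Mar (hat Sg hat_ne inv_ext)

/-- The point `r e^{iθ}`. -/
noncomputable def circ (r θ : ℝ) : ℂ := (r : ℂ) * Complex.exp ((θ : ℂ) * Complex.I)

/-- `ψ ∈ Σ` and `h = log ψ'` -/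
def IsSigma (ψ h : ℂ → ℂ) : Prop :=
  DifferentiableOn ℂ ψ {z : ℂ | 1 < ‖z‖} ∧
  Set.InjOn ψ {z : ℂ | 1 < ‖z‖} ∧
  (∃ b : ℂ, Filter.Tendsto (fun z => ψ z - z) (Bornology.cobounded ℂ) (nhds b)) ∧
  DifferentiableOn ℂ h {z : ℂ | 1 < ‖z‖} ∧
  (∀ z : ℂ, 1 < ‖z‖ → Complex.exp (h z) = deriv ψ z) ∧
  Filter.Tendsto h (Bornology.cobounded ℂ) (nhds 0)

/-- The integral of Q1. -/
noncomputable def marshall (a R : ℝ) (h : ℂ → ℂ) : ℝ :=
  (1 / (2 * Real.pi)) * ∫ θ in (0:ℝ)..(2 * Real.pi),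
    Real.exp (a * ‖h (circ R θ)‖ ^ 2 / Real.log (R ^ 2 / (R ^ 2 - 1)))

/-- The integral mean of `|ψ' ^ τ|`. -/
noncomputable def powerMean (τ : ℂ) (R : ℝ) (h : ℂ → ℂ) : ℝ :=
  (1 / (2 * Real.pi)) * ∫ θ in (0:ℝ)..(2 * Real.pi), ‖Complex.exp (τ * h (circ R θ))‖

theorem circ_norm {R : ℝ} (hR : 0 < R) (θ : ℝ) : ‖circ R θ‖ = R := by
  unfold circ
  rw [norm_mul, Complex.norm_real, Real.norm_of_nonneg hR.le, Complex.norm_exp_ofReal_mul_I, mul_one]

theorem circ_cm (R θ : ℝ) : circ R θ = circleMap 0 R θ := by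
  unfold circ circleMap
  rw [zero_add]

/-- the reflected function -/
noncomputable def rf (h : ℂ → ℂ) (R₀ : ℝ) (v : ℂ) : ℂ := (starRingEnd ℂ) (hat h 0 ((starRingEnd ℂ) ((R₀⁻¹ : ℝ) * v)))

theorem rf_eq {h : ℂ → ℂ} {R₀ : ℝ} (hR : 0 < R₀) {ρ : ℝ} (hρ : 0 < ρ) (θ : ℝ) :
    rf h R₀ (circleMap 0 ρ θ) = (starRingEnd ℂ) (h (circ (R₀ / ρ) θ)) := by
  unfold rf
  have h1 : (starRingEnd ℂ) ((R₀⁻¹ : ℝ) * circleMap 0 ρ θ) ≠ 0 := by
    rw [map_ne_zero]
    apply mul_ne_zero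
    · rw [Complex.ofReal_ne_zero]
      positivity
    · exact circleMap_ne_center hρ.ne'
  rw [hat_ne _ _ h1]
  congr 2
  have h2 : (starRingEnd ℂ) (Complex.exp (θ * I)) = (Complex.exp (θ * I))⁻¹ := by
    rw [← Complex.exp_neg, ← Complex.exp_conj]
    congr 1
    rw [map_mul, Complex.conj_ofReal, Complex.conj_I]
    ring
  rw [circleMap_zero, map_mul, map_mul, Complex.conj_ofReal, Complex.conj_ofReal, h2, mul_inv, mul_inv, inv_inv]
  unfold circ
  push_cast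
  rw [inv_inv]
  ring

theorem rf_diff {ψ h : ℂ → ℂ} (S : Sg (hat (fun z => ψ z / z) 1) (hat h 0)) {R₀ : ℝ} (hR : 1 < R₀) :
    DifferentiableOn ℂ (rf h R₀) (ball 0 R₀) := by
  intro v hv
  rw [mem_ball_zero_iff] at hv
  have hm : (starRingEnd ℂ) ((R₀⁻¹ : ℝ) * v) ∈ ball (0 : ℂ) 1 := by
    rw [mem_ball_zero_iff, RCLike.norm_conj, norm_mul, Complex.norm_real, Real.norm_of_nonneg (by positivity)]
    rw [inv_mul_lt_one₀ (by positivity)]
    exact hv
  have h1 : DifferentiableAt ℂ (hat h 0) ((starRingEnd ℂ) ((R₀⁻¹ : ℝ) * v)) :=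
    (S.dH _ hm).differentiableAt (isOpen_ball.mem_nhds hm)
  have h2 := h1.conj_conj
  rw [Complex.conj_conj] at h2
  have h3 : DifferentiableAt ℂ (fun v : ℂ => ((R₀⁻¹ : ℝ) : ℂ) * v) v := by fun_prop
  have h4 := DifferentiableAt.comp v h2 h3
  exact h4.differentiableWithinAt

theorem rf_gol {ψ h : ℂ → ℂ} (S : Sg (hat (fun z => ψ z / z) 1) (hat h 0)) {R₀ : ℝ} (hR : 1 < R₀) {v : ℂ}
    (hv : v ∈ ball (0 : ℂ) 1) : ‖rf h R₀ v‖ ≤ -Real.log (1 - ‖v‖ ^ 2) := by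
  rw [mem_ball_zero_iff] at hv
  have hn : ‖(starRingEnd ℂ) ((R₀⁻¹ : ℝ) * v)‖ = R₀⁻¹ * ‖v‖ := by
    rw [RCLike.norm_conj, norm_mul, Complex.norm_real, Real.norm_of_nonneg (by positivity)]
  have h0 : R₀⁻¹ ≤ 1 := inv_le_one_of_one_le₀ hR.le
  have h1 : R₀⁻¹ * ‖v‖ ≤ ‖v‖ := mul_le_of_le_one_left (norm_nonneg _) h0
  have hm : (starRingEnd ℂ) ((R₀⁻¹ : ℝ) * v) ∈ ball (0 : ℂ) 1 := by
    rw [mem_ball_zero_iff, hn]
    linarith
  unfold rf
  rw [RCLike.norm_conj]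
  refine (Pool.Agent.W677.Mar.goluzin S hm).trans ?_
  rw [hn]
  apply neg_le_neg
  apply Real.log_le_log
  · nlinarith [norm_nonneg v]
  · have : 0 ≤ R₀⁻¹ * ‖v‖ := by positivity
    nlinarith

/-- **the means of the powers** -/
theorem mean_level {t κ : ℝ} (h0 : 0 < t) (h1 : t < 1) (k0 : 0 ≤ κ) (k1 : t * κ < 1) :
    ∃ C : ℝ, 0 ≤ C ∧ ∀ V : ℝ, 0 ≤ V → ∀ R₀ : ℝ, 1 < R₀ → ∀ ψ h : ℂ → ℂ, IsSigma ψ h → ∀ w : ℝ → ℝ, Measurable w →
      Function.Periodic w (2 * Real.pi) → (∀ θ, |(h (circ R₀ θ)).im - w θ| ≤ κ * (Real.pi / 2)) →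
      gagl t w ≤ ENNReal.ofReal V → ∀ R : ℝ, R₀ < R → ∀ τ : ℂ, ‖τ‖ ≤ t → powerMean τ R h ≤ C * (1 + V) := by
  have hE : 0 < EE t κ := by unfold EE; positivity
  have hc := cc_pos h0 k0 k1
  have hK : 0 ≤ Kt t := by
    unfold Kt
    have : 0 < 1 - t := by linarith
    positivity
  set c1 : ℝ := EE t κ / cc t κ * (EE t κ * 2) with hc1
  set c2 : ℝ := EE t κ / cc t κ * (EE t κ * (2 * Real.pi)⁻¹ * Kt t) with hc2
  have hc1' : 0 ≤ c1 := by positivity
  have hc2' : 0 ≤ c2 := by positivity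
  refine ⟨c1 + c2, by positivity, fun V hV R₀ hR₀ ψ h hS w mw pw nw gw R hR τ hτ => ?_⟩
  have S := (Q90.SM.ext_all ψ h hS).1
  have hR0 : 0 < R₀ := by linarith
  have hRp : 0 < R := by linarith
  have hdiff := rf_diff S hR₀
  have hcl : closedBall (0 : ℂ) 1 ⊆ ball 0 R₀ := closedBall_subset_ball hR₀
  -- the circle
  have hcirc : ∀ ζ : ℂ, ‖ζ‖ = 1 → ζ = circleMap 0 1 ζ.arg := by
    intro ζ hζ
    rw [circleMap_zero, Complex.ofReal_one, one_mul]
    have := Complex.norm_mul_exp_arg_mul_I ζ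
    rw [hζ, Complex.ofReal_one, one_mul] at this
    exact this.symm
  have him : ∀ ζ : ℂ, ‖ζ‖ = 1 → (rf h R₀ ζ).im = -(h (circ R₀ ζ.arg)).im := by
    intro ζ hζ
    conv_lhs => rw [hcirc ζ hζ]
    rw [rf_eq hR0 one_pos, div_one, Complex.conj_im]
  obtain ⟨B, hB⟩ := (isCompact_sphere (0 : ℂ) 1).exists_bound_of_continuousOn
    (hdiff.continuousOn.mono (sphere_subset_closedBall.trans hcl))
  have D : Dat (rf h R₀) (fun ζ => -w ζ.arg) t κ (B + κ * (Real.pi / 2)) ((starRingEnd ℂ) τ) := by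
    refine ⟨h0, h1, k0, k1, hdiff.diffContOnCl_ball hcl, fun v hv => rf_gol S hR₀ hv,
      (mw.comp Complex.measurable_arg).neg, ?_, ?_, ?_⟩
    · intro ζ hζ
      rw [him ζ hζ, neg_sub_neg, abs_sub_comm]
      exact nw _
    · intro ζ hζ
      have h3 := nw ζ.arg
      have h4 := hB ζ (by simpa using hζ)
      have h5 := (Complex.abs_im_le_norm (rf h R₀ ζ)).trans h4
      rw [him ζ hζ, abs_neg] at h5
      rw [abs_neg]
      calc |w ζ.arg| = |(h (circ R₀ ζ.arg)).im - ((h (circ R₀ ζ.arg)).im - w ζ.arg)| := by rw [sub_sub_cancel]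
        _ ≤ |(h (circ R₀ ζ.arg)).im| + |(h (circ R₀ ζ.arg)).im - w ζ.arg| := abs_sub _ _
        _ ≤ _ := add_le_add h5 h3
    · rw [RCLike.norm_conj]
      exact hτ
  have hg : gag t (fun ζ => -w ζ.arg) ≤ ENNReal.ofReal V := by
    rw [gag_neg, gag_arg pw]
    exact gw
  have hρ0 : 0 < R₀ / R := by positivity
  have hρ1 : R₀ / R < 1 := (div_lt_one hRp).2 hR
  have key := D.key hV hg hρ0 hρ1
  have e1 : powerMean τ R h = Real.circleAverage (fun v => ‖Complex.exp ((starRingEnd ℂ) τ * rf h R₀ v)‖) 0 (R₀ / R) := by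
    unfold powerMean Real.circleAverage
    rw [smul_eq_mul, one_div]
    congr 1
    apply intervalIntegral.integral_congr
    intro θ _
    simp only
    rw [rf_eq hR0 hρ0, div_div_cancel₀ hR0.ne', ← map_mul, Complex.exp_conj, RCLike.norm_conj]
  rw [e1]
  refine key.trans ?_
  have e2 : EE t κ / cc t κ * (EE t κ * 2 + EE t κ * (2 * Real.pi)⁻¹ * (Kt t * V)) = c1 + c2 * V := by
    rw [hc1, hc2]
    ring
  rw [e2]
  nlinarith [mul_nonneg hc1' hV, mul_nonneg hc2' hV]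

/-- the conclusion: the means of the powers of order at most `t` and the integral of the question with the constant `a`
are at most `C` for all `R > R₀` -/
def Bounds (a t C R₀ : ℝ) (h : ℂ → ℂ) : Prop :=
  ∀ R : ℝ, R₀ < R → (∀ τ : ℂ, ‖τ‖ ≤ t → powerMean τ R h ≤ C) ∧ marshall a R h ≤ C

theorem gol_level {ψ h : ℂ → ℂ} (hS : IsSigma ψ h) {R : ℝ} (hR : 1 < R) (θ : ℝ) :
    ‖h (circ R θ)‖ ≤ Real.log (R ^ 2 / (R ^ 2 - 1)) := by
  have S := (Q90.SM.ext_all ψ h hS).1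
  have hRp : 0 < R := by linarith
  have hn := circ_norm hRp θ
  have h0 : circ R θ ≠ 0 := by
    rw [← norm_pos_iff, hn]
    exact hRp
  have hm : (circ R θ)⁻¹ ∈ ball (0 : ℂ) 1 := by
    rw [mem_ball_zero_iff, norm_inv, hn]
    exact inv_lt_one_of_one_lt₀ hR
  have h1 := Pool.Agent.W677.Mar.goluzin S hm
  rw [hat_ne _ _ (inv_ne_zero h0), inv_inv, norm_inv, hn] at h1
  refine h1.trans (le_of_eq ?_)
  rw [← Real.log_inv]
  congr 1
  have : R ^ 2 - 1 ≠ 0 := by nlinarith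
  field_simp

theorem cont_circ {ψ h : ℂ → ℂ} (hS : IsSigma ψ h) {R : ℝ} (hR : 1 < R) : Continuous fun θ => h (circ R θ) := by
  have h1 : ContinuousOn h {z : ℂ | 1 < ‖z‖} := hS.2.2.2.1.continuousOn
  apply h1.comp_continuous
  · unfold circ
    fun_prop
  · intro θ
    rw [Set.mem_ofPred_eq, circ_norm (by linarith)]
    exact hR

theorem marshall_of_means {a t : ℝ} (ha : 0 < a) (hat : a < t) (ht : t < 1) : ∃ K : ℝ, 1 ≤ K ∧ ∀ ψ h : ℂ → ℂ, IsSigma ψ h →
    ∀ R : ℝ, 1 < R → ∀ C : ℝ, (∀ τ : ℂ, ‖τ‖ ≤ t → powerMean τ R h ≤ C) → marshall a R h ≤ K * C := by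
  have hpi := Real.pi_pos
  have ht0 : 0 < t := ha.trans hat
  obtain ⟨T, hT1, hT2⟩ := Pool.Agent.Z55M.directions (a := a / t) (by positivity) ((div_lt_one ht0).2 hat)
  refine ⟨max 1 (T.card : ℝ), le_max_left _ _, fun ψ h hS R hR C hC => ?_⟩
  have hcont := cont_circ hS hR
  have hC0 : 0 ≤ C := by
    have h1 := hC 0 (by rw [norm_zero]; exact ht0.le)
    refine le_trans ?_ h1
    unfold powerMean
    apply mul_nonneg (by positivity)
    apply intervalIntegral.integral_nonneg (by positivity)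
    intro θ _
    exact norm_nonneg _
  have hL : 0 < Real.log (R ^ 2 / (R ^ 2 - 1)) := by
    apply Real.log_pos
    rw [lt_div_iff₀ (by nlinarith)]
    linarith
  have hpt : ∀ θ : ℝ, Real.exp (a * ‖h (circ R θ)‖ ^ 2 / Real.log (R ^ 2 / (R ^ 2 - 1))) ≤
      ∑ σ ∈ T, ‖Complex.exp (((t : ℂ) * σ) * h (circ R θ))‖ := by
    intro θ
    have h1 := hT2 ((t : ℂ) * h (circ R θ))
    rw [norm_mul, Complex.norm_real, Real.norm_of_nonneg ht0.le] at h1
    have h2 : a / t * (t * ‖h (circ R θ)‖) = a * ‖h (circ R θ)‖ := by field_simp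
    rw [h2] at h1
    have h3 : a * ‖h (circ R θ)‖ ^ 2 / Real.log (R ^ 2 / (R ^ 2 - 1)) ≤ a * ‖h (circ R θ)‖ := by
      rw [div_le_iff₀ hL, pow_two, ← mul_assoc]
      exact mul_le_mul_of_nonneg_left (gol_level hS hR θ) (by positivity)
    refine (Real.exp_le_exp.2 h3).trans (h1.trans (le_of_eq ?_))
    apply Finset.sum_congr rfl
    intro σ _
    congr 2
    ring
  have hcs : ∀ σ : ℂ, Continuous (fun θ => ‖Complex.exp (((t : ℂ) * σ) * h (circ R θ))‖) :=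
    fun σ => (Complex.continuous_exp.comp (continuous_const.mul hcont)).norm
  have hint : ∀ σ : ℂ, IntervalIntegrable (fun θ => ‖Complex.exp (((t : ℂ) * σ) * h (circ R θ))‖) volume 0 (2 * Real.pi) :=
    fun σ => (hcs σ).intervalIntegrable _ _
  calc marshall a R h ≤ (1 / (2 * Real.pi)) * ∫ θ in (0:ℝ)..(2 * Real.pi),
        ∑ σ ∈ T, ‖Complex.exp (((t : ℂ) * σ) * h (circ R θ))‖ := by
        unfold marshall
        apply mul_le_mul_of_nonneg_left _ (by positivity)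
        apply intervalIntegral.integral_mono_on (by positivity)
        · exact (Real.continuous_exp.comp ((continuous_const.mul (hcont.norm.pow 2)).div_const _)).intervalIntegrable _ _
        · exact (continuous_finsetSum _ fun σ _ => hcs σ).intervalIntegrable _ _
        · intro θ _
          exact hpt θ
    _ = ∑ σ ∈ T, powerMean ((t : ℂ) * σ) R h := by
        rw [intervalIntegral.integral_finsetSum fun σ _ => hint σ, Finset.mul_sum]
        rfl
    _ ≤ ∑ _σ ∈ T, C := by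
        apply Finset.sum_le_sum
        intro σ hσ
        apply hC
        rw [norm_mul, Complex.norm_real, Real.norm_of_nonneg ht0.le]
        exact mul_le_of_le_one_right ht0.le (hT1 σ hσ).le
    _ = (T.card : ℝ) * C := by rw [Finset.sum_const, nsmul_eq_mul]
    _ ≤ max 1 (T.card : ℝ) * C := mul_le_mul_of_nonneg_right (le_max_right _ _) hC0

/-- **the criterion** -/
theorem crit {a t κ : ℝ} (ha : 0 < a) (hat : a < t) (ht : t < 1) (k0 : 0 ≤ κ) (k1 : t * κ < 1) :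
    ∃ C : ℝ, 0 ≤ C ∧ ∀ V : ℝ, 0 ≤ V → ∀ R₀ : ℝ, 1 < R₀ → ∀ ψ h : ℂ → ℂ, IsSigma ψ h → ∀ w : ℝ → ℝ, Measurable w →
      Function.Periodic w (2 * Real.pi) → (∀ θ, |(h (circ R₀ θ)).im - w θ| ≤ κ * (Real.pi / 2)) →
      gagl t w ≤ ENNReal.ofReal V → Bounds a t (C * (1 + V)) R₀ h := by
  obtain ⟨C, hC0, hC⟩ := mean_level (ha.trans hat) ht k0 k1
  obtain ⟨K, hK1, hK⟩ := marshall_of_means ha hat ht
  refine ⟨K * C, by positivity, fun V hV R₀ hR₀ ψ h hS w mw pw nw gw R hR => ?_⟩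
  have h1 := hC V hV R₀ hR₀ ψ h hS w mw pw nw gw R hR
  refine ⟨fun τ hτ => (h1 τ hτ).trans ?_, ?_⟩
  · have : 0 ≤ C * (1 + V) := by positivity
    nlinarith
  · rw [mul_assoc]
    exact hK ψ h hS R (hR₀.trans hR) _ h1

theorem crit_ctl {a t κ : ℝ} (ha : 0 < a) (hat : a < t) (ht : t < 1) (k0 : 0 ≤ κ) (k1 : t * κ < 1) :
    ∃ C : ℝ, 0 ≤ C ∧ ∀ V : ℝ, ∀ R₀ : ℝ, 1 < R₀ → ∀ ψ h : ℂ → ℂ, IsSigma ψ h → ∀ w : ℝ → ℝ, Function.Periodic w (2 * Real.pi) →
      (∀ θ, |(h (circ R₀ θ)).im - w θ| ≤ κ * (Real.pi / 2)) → Ctl w V → Bounds a t (C * (1 + V)) R₀ h := by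
  have ht0 := ha.trans hat
  have hKb : 0 ≤ Kb t := by
    unfold Kb
    have : 0 < 1 - t := by linarith
    have := Real.pi_pos
    positivity
  obtain ⟨C, hC0, hC⟩ := crit ha hat ht k0 k1
  refine ⟨C * (1 + Kb t), by positivity, fun V R₀ hR₀ ψ h hS w pw nw hc => ?_⟩
  have hV := hc.nonneg
  have h1 := hC (Kb t * V) (by positivity) R₀ hR₀ ψ h hS w hc.meas pw nw (hc.gagl ht0 ht)
  have h2 : C * (1 + Kb t * V) ≤ C * (1 + Kb t) * (1 + V) := by
    rw [mul_assoc]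
    apply mul_le_mul_of_nonneg_left _ hC0
    nlinarith
  intro R hR
  obtain ⟨h3, h4⟩ := h1 R hR
  exact ⟨fun τ hτ => (h3 τ hτ).trans h2, h4.trans h2⟩

/-- the turning of an arc that is monotone in some direction -/
theorem arc_turn {ψ h : ℂ → ℂ} (hS : IsSigma ψ h) {R₀ : ℝ} (hR : 1 < R₀) {b : ℂ} (hb : b ≠ 0) {p q : ℝ}
    (hm : MonotoneOn (fun x => ((starRingEnd ℂ) b * ψ (circ R₀ x)).re) (Icc p q)) :
    ∀ x ∈ Icc p q, ∀ y ∈ Icc p q, |(x + (h (circ R₀ x)).im) - (y + (h (circ R₀ y)).im)| ≤ Real.pi := by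
  have hpi := Real.pi_pos
  have hR0 : 0 < R₀ := by linarith
  have hcont := cont_circ hS hR
  have hT : Continuous fun x : ℝ => x + (h (circ R₀ x)).im := continuous_id.add (Complex.continuous_im.comp hcont)
  rcases le_or_gt q p with hqp | hpq
  · intro x hx y hy
    have e1 : x = y := by linarith [hx.1, hx.2, hy.1, hy.2]
    rw [e1, sub_self, abs_zero]
    exact hpi.le
  refine osc_arc (T := fun x : ℝ => x + (h (circ R₀ x)).im) hT (c := b.arg - Real.pi / 2) ?_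
  have hint : ∀ x ∈ Ioo p q, 0 ≤ Real.cos (x + (h (circ R₀ x)).im - (b.arg - Real.pi / 2)) := by
    intro x hx
    have hz : 1 < ‖circ R₀ x‖ := by rw [circ_norm hR0]; exact hR
    have ho : IsOpen {z : ℂ | 1 < ‖z‖} := isOpen_lt continuous_const continuous_norm
    have h1 : HasDerivAt ψ (deriv ψ (circ R₀ x)) (circ R₀ x) :=
      ((hS.1 _ hz).differentiableAt (ho.mem_nhds hz)).hasDerivAt
    have h2 : HasDerivAt (fun x : ℝ => circ R₀ x) (circ R₀ x * I) x := by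
      have e2 : (fun x : ℝ => circ R₀ x) = circleMap 0 R₀ := by
        funext y
        exact circ_cm R₀ y
      rw [e2, circ_cm]
      exact hasDerivAt_circleMap 0 R₀ x
    have h3 : HasDerivAt (fun x : ℝ => ψ (circ R₀ x)) (deriv ψ (circ R₀ x) * (circ R₀ x * I)) x := by
      have h4 := HasDerivAt.scomp x (h := fun x : ℝ => circ R₀ x) h1 h2
      rw [smul_eq_mul, mul_comm] at h4
      exact h4
    have h5 : HasDerivAt (fun x : ℝ => (starRingEnd ℂ) b * ψ (circ R₀ x))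
        ((starRingEnd ℂ) b * (deriv ψ (circ R₀ x) * (circ R₀ x * I))) x := h3.const_mul _
    have h6 : HasDerivAt (fun x : ℝ => ((starRingEnd ℂ) b * ψ (circ R₀ x)).re)
        ((starRingEnd ℂ) b * (deriv ψ (circ R₀ x) * (circ R₀ x * I))).re x :=
      (Complex.reCLM.hasFDerivAt.comp_hasDerivAt x h5)
    have h7 : 0 ≤ ((starRingEnd ℂ) b * (deriv ψ (circ R₀ x) * (circ R₀ x * I))).re := by
      have h8 := hm.derivWithin_nonneg (x := x)
      rw [derivWithin_of_mem_nhds (Icc_mem_nhds hx.1 hx.2), h6.deriv] at h8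
      exact h8
    have e3 : ((starRingEnd ℂ) b * (deriv ψ (circ R₀ x) * (circ R₀ x * I))).re =
        ‖b‖ * R₀ * Real.exp (h (circ R₀ x)).re * Real.cos (x + (h (circ R₀ x)).im - (b.arg - Real.pi / 2)) := by
      have e4 : (starRingEnd ℂ) b = (‖b‖ : ℂ) * Complex.exp (((-b.arg : ℝ) : ℂ) * I) := by
        have := Complex.norm_mul_exp_arg_mul_I b
        conv_lhs => rw [← this]
        rw [map_mul, Complex.conj_ofReal, ← Complex.exp_conj, map_mul, Complex.conj_ofReal, Complex.conj_I]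
        push_cast
        ring_nf
      have e5 : deriv ψ (circ R₀ x) = ((Real.exp (h (circ R₀ x)).re : ℝ) : ℂ) * Complex.exp (((h (circ R₀ x)).im : ℂ) * I) := by
        rw [← hS.2.2.2.2.1 _ hz]
        conv_lhs => rw [← Complex.re_add_im (h (circ R₀ x))]
        rw [Complex.exp_add]
        push_cast
        rfl
      have e6 : I = Complex.exp (((Real.pi / 2 : ℝ) : ℂ) * I) := by
        push_cast
        rw [Complex.exp_pi_div_two_mul_I]
      have e7 : (starRingEnd ℂ) b * (deriv ψ (circ R₀ x) * (circ R₀ x * I)) =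
          ((‖b‖ * R₀ * Real.exp (h (circ R₀ x)).re : ℝ) : ℂ) *
            Complex.exp (((x + (h (circ R₀ x)).im - (b.arg - Real.pi / 2) : ℝ) : ℂ) * I) := by
        have e8 : (((x + (h (circ R₀ x)).im - (b.arg - Real.pi / 2) : ℝ) : ℂ) * I) =
            ((-b.arg : ℝ) : ℂ) * I + (((h (circ R₀ x)).im : ℂ) * I + ((x : ℂ) * I + ((Real.pi / 2 : ℝ) : ℂ) * I)) := by
          push_cast
          ring
        have e9 : circ R₀ x * I = (R₀ : ℂ) * (Complex.exp ((x : ℂ) * I) * I) := by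
          unfold circ
          ring
        rw [e8, Complex.exp_add, Complex.exp_add, Complex.exp_add, e4, e5, ← e6, e9]
        push_cast
        ring
      rw [e7, Complex.re_ofReal_mul, Complex.exp_ofReal_mul_I_re]
    rw [e3] at h7
    have hpos : 0 < ‖b‖ * R₀ * Real.exp (h (circ R₀ x)).re := by
      have := norm_pos_iff.2 hb
      positivity
    exact nonneg_of_mul_nonneg_right h7 hpos
  have hcl : IsClosed {x : ℝ | 0 ≤ Real.cos (x + (h (circ R₀ x)).im - (b.arg - Real.pi / 2))} :=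
    isClosed_le continuous_const (Real.continuous_cos.comp (hT.sub continuous_const))
  intro x hx
  rw [← closure_Ioo hpq.ne] at hx
  exact hcl.closure_subset_iff.2 (fun y hy => hint y hy) hx

end Pool.Agent.Helper63x.TC
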